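import Pool.Agent.K4H19.GM.Mod3

/-! Assembly: first occurrences of gaps. -/

set_option autoImplicit false

open MeasureTheory ProbabilityTheory Finset Filter
open scoped Topology

namespace Pool.Agent.K4H19.GM

open Pool.Agent.K4H77.Noise (emp rset mem_emp_iff firstAfter firstAfter_le firstAfter_spec first_upper first_lower
  nth_gap ev_gap ngap rset_infinite)

/-- the random sets exist -/
theorem exists_granville (T : ℕ → ℕ) :
    ∃ (P : Measure (ℕ → Bool)) (_ : IsProbabilityMeasure P) (A : ℕ → Set (ℕ → Bool)), Granville T P A := by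
  have h0 : ∀ n, 0 ≤ prb T n := prb_nonneg T
  have h1 : ∀ n, prb T n ≤ 1 := prb_le_one T
  set μ : ℕ → Measure Bool := fun n =>
    ENNReal.ofReal (prb T n) • Measure.dirac true + ENNReal.ofReal (1 - prb T n) • Measure.dirac false
    with hμ
  have hprob : ∀ n, IsProbabilityMeasure (μ n) := by
    intro n
    constructor
    rw [hμ]
    simp only [Measure.coe_add, Measure.coe_smul, Pi.add_apply, Pi.smul_apply, smul_eq_mul,
      measure_univ, mul_one]
    rw [← ENNReal.ofReal_add (h0 n) (by linarith [h1 n])]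
    simp
  have htrue : ∀ n, μ n {true} = ENNReal.ofReal (prb T n) := by
    intro n
    rw [hμ]
    simp only [Measure.coe_add, Measure.coe_smul, Pi.add_apply, Pi.smul_apply, smul_eq_mul]
    rw [Measure.dirac_apply' _ (measurableSet_singleton _),
      Measure.dirac_apply' _ (measurableSet_singleton _)]
    simp
  have hpi : ∀ s : Finset ℕ, Measure.infinitePi μ (⋂ n ∈ s, {ω : ℕ → Bool | ω n = true}) =
      ∏ n ∈ s, ENNReal.ofReal (prb T n) := by
    intro s
    have h2 := Measure.infinitePi_pi (μ := μ) (s := s) (t := fun _ => {true})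
      (fun _ _ => measurableSet_singleton _)
    have h3 : (⋂ n ∈ s, {ω : ℕ → Bool | ω n = true}) = Set.pi (s : Set ℕ) (fun _ => {true}) := by
      ext ω
      simp [Set.mem_pi]
    rw [h3, h2]
    exact Finset.prod_congr rfl fun n _ => htrue n
  have hmeas : ∀ n, MeasurableSet {ω : ℕ → Bool | ω n = true} := by
    intro n
    have h5 : MeasurableSet ((fun ω : ℕ → Bool => ω n) ⁻¹' {true}) :=
      (measurable_pi_apply n) (measurableSet_singleton true)
    exact h5
  refine ⟨Measure.infinitePi μ, inferInstance, fun n => {ω | ω n = true}, hmeas, ?_, ?_⟩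
  · rw [iIndepSet_iff_meas_biInter]
    · intro s
      rw [hpi s]
      apply Finset.prod_congr rfl
      intro n _
      have h4 := hpi {n}
      simp only [Finset.mem_singleton, Set.iInter_iInter_eq_left, Finset.prod_singleton] at h4
      exact h4.symm
    · exact hmeas
  · intro n
    have h4 := hpi {n}
    simpa only [Finset.mem_singleton, Set.iInter_iInter_eq_left, Finset.prod_singleton] using h4

/-- comparison of window lengths -/
lemma len_cmp {c c' : ℝ} (hc : 0 < c) (hcc : c < c') : ∀ᶠ j : ℕ in atTop,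
    c * (((j : ℝ) + 3) * Real.log 2) ^ 2 + 1 ≤ yy c' j := by
  have hl := log2_pos
  have h1 : Tendsto (fun j : ℕ => (c * (((j : ℝ) + 3) * Real.log 2) ^ 2 + 2) / ((j : ℝ) * Real.log 2) ^ 2) atTop (𝓝 c) := by
    have h2 : Tendsto (fun j : ℕ => c * (1 + 3 / (j : ℝ)) ^ 2 + (2 / (Real.log 2) ^ 2) * (1 / (j : ℝ)) ^ 2) atTop
        (𝓝 (c * (1 + 0) ^ 2 + (2 / (Real.log 2) ^ 2) * 0 ^ 2)) := by
      apply Tendsto.add
      · apply Tendsto.const_mul
        apply Tendsto.pow
        exact (tendsto_natCast_atTop_atTop.const_div_atTop _).const_add _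
      · apply Tendsto.const_mul
        apply Tendsto.pow
        exact tendsto_natCast_atTop_atTop.const_div_atTop _
    rw [show c * (1 + 0) ^ 2 + (2 / (Real.log 2) ^ 2) * 0 ^ 2 = c by ring] at h2
    refine h2.congr' ?_
    filter_upwards [eventually_gt_atTop 0] with j hj
    have hjr : (0 : ℝ) < j := by exact_mod_cast hj
    field_simp
  filter_upwards [h1.eventually_lt_const hcc, eventually_gt_atTop 0] with j hj hj0
  have hjr : (0 : ℝ) < j := by exact_mod_cast hj0
  rw [div_lt_iff₀ (by positivity)] at hj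
  have h2 : c' * ((j : ℝ) * Real.log 2) ^ 2 < yy c' j + 1 := Nat.lt_floor_add_one _
  linarith

/-- from dyadic blocks to all scales -/
lemma win_of_block {S : Set ℕ} {c c' : ℝ} (hc : 0 < c) (hcc : c < c')
    (h : ∀ᶠ j : ℕ in atTop, ∃ n : ℕ, 2 ^ j ≤ n ∧ n + yy c' j < 2 * 2 ^ j ∧ ∀ i ∈ Icc 1 (yy c' j), n + i ∉ S) :
    ∀ᶠ x : ℕ in atTop, ∃ n : ℕ, n ≤ x ∧ (x : ℝ) ^ (1 / 2 : ℝ) < n ∧
      ∀ m : ℕ, n < m → (m : ℝ) ≤ n + c * (Real.log x) ^ 2 → m ∉ S := by
  have t1 : Tendsto (fun x : ℕ => Nat.log 2 x - 1) atTop atTop := by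
    apply tendsto_atTop_mono (fun x => le_rfl)
    exact (tendsto_sub_atTop_nat 1).comp tlog2
  filter_upwards [t1.eventually h, t1.eventually (len_cmp hc hcc), eventually_ge_atTop 17] with x h1 h2 hx
  set j := Nat.log 2 x - 1 with hj
  obtain ⟨n, h3, h4, h5⟩ := h1
  have hlog : 1 ≤ Nat.log 2 x := Nat.log_pos (by norm_num) (by omega)
  have hx1 : 2 * 2 ^ j ≤ x := by
    have := Nat.pow_log_le_self 2 (show x ≠ 0 by omega)
    have e : Nat.log 2 x = j + 1 := by omega
    rw [e, pow_succ] at this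
    omega
  have hx2 : x < 4 * 2 ^ j := by
    have := Nat.lt_pow_succ_log_self (b := 2) (by norm_num) x
    have e : (Nat.log 2 x).succ = j + 2 := by omega
    rw [e, pow_succ, pow_succ] at this
    omega
  have hxr : (17 : ℝ) ≤ x := by exact_mod_cast hx
  refine ⟨n, by omega, ?_, ?_⟩
  · have h6 : (x : ℝ) < 4 * n := by
      have : x < 4 * n := by omega
      exact_mod_cast this
    have h7 : (x : ℝ) ^ (1 / 2 : ℝ) * (x : ℝ) ^ (1 / 2 : ℝ) = x := by
      rw [← Real.rpow_add (by linarith)]; norm_num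
    have h8 : (4 : ℝ) < (x : ℝ) ^ (1 / 2 : ℝ) := by
      by_contra hcon
      push Not at hcon
      have h9 : 0 ≤ (x : ℝ) ^ (1 / 2 : ℝ) := by positivity
      nlinarith
    nlinarith
  · intro m hm1 hm2
    have h6 : Real.log x ≤ ((j : ℝ) + 3) * Real.log 2 := by
      have h7 : Real.log x ≤ ((j + 2 : ℕ) : ℝ) * Real.log 2 := by
        rw [← Real.log_pow]
        apply Real.log_le_log (by linarith)
        have : x ≤ 2 ^ (j + 2) := by rw [pow_succ, pow_succ]; omega
        exact_mod_cast this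
      push_cast at h7
      have := log2_pos
      nlinarith
    have h7 : c * (Real.log x) ^ 2 ≤ c * (((j : ℝ) + 3) * Real.log 2) ^ 2 := by
      have : 0 ≤ Real.log x := Real.log_natCast_nonneg x
      gcongr
    have h8 : m - n ≤ yy c' j := by
      have h9 : ((m - n : ℕ) : ℝ) ≤ yy c' j := by
        rw [Nat.cast_sub hm1.le]
        linarith
      exact_mod_cast h9
    have h10 := h5 (m - n) (by rw [mem_Icc]; omega)
    rwa [Nat.add_sub_cancel' hm1.le] at h10

/-- the frequent version of the upper bound for the first occurrence -/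
lemma freq_first {S : Set ℕ} (hS : S.Infinite) {c c' : ℝ} (hc : 0 < c) (hcc : c < c')
    (h : ∃ᶠ j : ℕ in atTop, ∃ n : ℕ, 2 ^ j ≤ n ∧ n + yy c' j < 2 * 2 ^ j ∧ ∀ i ∈ Icc 1 (yy c' j), n + i ∉ S)
    (h2 : ∀ᶠ x : ℕ in atTop, ∃ m : ℕ, x < m ∧ m ≤ 2 * x ∧ m ∈ S) :
    ∃ᶠ g : ℕ in atTop, (∃ k : ℕ, Nat.nth (· ∈ S) k + g < Nat.nth (· ∈ S) (k + 1)) ∧
      (Real.log (firstAfter S g)) ^ 2 / g ≤ 1 / c := by
  classical
  have hS' : (Set.ofPred (· ∈ S)).Infinite := hS
  obtain ⟨a, ha⟩ := hS.nonempty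
  have t0 : Tendsto (fun j : ℕ => 2 ^ j) atTop (atTop : Filter ℕ) := tendsto_pow_atTop_atTop_of_one_lt (by norm_num : (1 : ℕ) < 2)
  have t1 : Tendsto (fun j : ℕ => 2 * 2 ^ j) atTop (atTop : Filter ℕ) := t0.const_mul_atTop' (by norm_num)
  have t2 : Tendsto (yy c') atTop atTop := by
    apply tendsto_nat_floor_atTop.comp
    apply Tendsto.const_mul_atTop (hc.trans hcc)
    apply (tendsto_pow_atTop (by norm_num)).comp
    exact (tendsto_natCast_atTop_atTop (R := ℝ)).atTop_mul_const log2_pos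
  rw [Filter.frequently_atTop]
  intro G
  obtain ⟨j, ⟨n, h3, h4, h5⟩, h6, h7, h8, h9, h10⟩ := (h.and_eventually ((t1.eventually h2).and
    ((t0.eventually_gt_atTop a).and ((t2.eventually_ge_atTop (G + 1)).and ((len_cmp hc hcc).and
      (eventually_ge_atTop 1)))))).exists
  set g := yy c' j with hg
  obtain ⟨b, hb1, hb2, hb3⟩ := h6
  have hcpos : 0 < Nat.count (· ∈ S) (n + 1) := by
    rw [Nat.count_eq_card_filter_range, Finset.card_pos]
    exact ⟨a, Finset.mem_filter.2 ⟨Finset.mem_range.2 (by omega), ha⟩⟩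
  obtain ⟨e1, e2⟩ := nth_gap hS h5 hcpos
  set k := Nat.count (· ∈ S) (n + 1) - 1 with hk
  have hgap : Nat.nth (· ∈ S) k + g < Nat.nth (· ∈ S) (k + 1) := by omega
  refine ⟨g, by omega, ⟨k, hgap⟩, ?_⟩
  have h11 := firstAfter_le hgap
  have h12 : Nat.nth (· ∈ S) (k + 1) ≤ b := by
    have h12 : k + 1 < Nat.count (· ∈ S) (b + 1) := by
      have h13 : Nat.count (· ∈ S) (b + 1) = Nat.count (· ∈ S) b + 1 := by
        rw [Nat.count_succ, if_pos hb3]
      have h14 : Nat.count (· ∈ S) (n + 1) ≤ Nat.count (· ∈ S) b :=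
        Nat.count_monotone _ (by omega)
      omega
    have := Nat.nth_lt_of_lt_count h12
    omega
  have h13 : 1 ≤ firstAfter S g := by
    obtain ⟨k', hk'1, hk'2⟩ := firstAfter_spec ⟨k, hgap⟩
    omega
  have h14 : firstAfter S g ≤ 2 ^ (j + 2) := by
    rw [pow_succ, pow_succ]
    omega
  have h15 : Real.log (firstAfter S g) ≤ ((j : ℝ) + 3) * Real.log 2 := by
    have h16 : Real.log (firstAfter S g) ≤ ((j + 2 : ℕ) : ℝ) * Real.log 2 := by
      rw [← Real.log_pow]
      apply Real.log_le_log (by exact_mod_cast h13)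
      exact_mod_cast h14
    push_cast at h16
    have := log2_pos
    nlinarith
  have h16 : 0 ≤ Real.log (firstAfter S g) := Real.log_natCast_nonneg _
  have hg0 : (0 : ℝ) < g := by
    have : 0 < g := by omega
    exact_mod_cast this
  rw [div_le_div_iff₀ hg0 hc]
  have h17 : (Real.log (firstAfter S g)) ^ 2 ≤ (((j : ℝ) + 3) * Real.log 2) ^ 2 :=
    pow_le_pow_left₀ h16 h15 2
  nlinarith

end Pool.Agent.K4H19.GM
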