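import Pool.Agent.K4H19.GM.FL

/-! Windows with fewer integers free of small primes than expected. -/

set_option autoImplicit false

open Finset Filter
open scoped Topology

namespace Pool.Agent.K4H19.GM

open Pool.Agent.Helper112.LP.Kbh

lemma E_empty (g : ℕ → ℝ) (r : ℕ) : bhE g (r + 1) ∅ = 0 := by
  unfold bhE
  rw [powersetCard_eq_empty.2 (by simp)]
  simp

lemma E_up (g : ℕ → ℝ) (P : Finset ℕ) : (∀ l ∈ P, 0 ≤ g l) → ∀ r : ℕ,
    ((r : ℝ) + 1) * bhE g (r + 1) P ≤ (∑ l ∈ P, g l) * bhE g r P := by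
  induction P using Finset.induction_on with
  | empty =>
    intro _ r
    rw [E_empty]
    simp
  | insert q P hq ih =>
    intro hg r
    have hgP : ∀ l ∈ P, 0 ≤ g l := fun l hl => hg l (mem_insert_of_mem hl)
    have hgq := hg q (mem_insert_self q P)
    have hS : 0 ≤ ∑ l ∈ P, g l := sum_nonneg hgP
    rw [sum_insert hq, bhE_insert g r P q hq]
    have h1 := ih hgP r
    rcases r with _ | r
    · simp only [Nat.cast_zero, zero_add, bhE_zero] at h1 ⊢
      linarith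
    · rw [bhE_insert g r P q hq]
      have h0 := ih hgP r
      have e0 := bhE_nonneg g r P hgP
      push_cast at h1 h0 ⊢
      have h3 := mul_le_mul_of_nonneg_left h0 hgq
      have h4 : 0 ≤ g q * g q * bhE g r P := by positivity
      nlinarith

lemma E_low (g : ℕ → ℝ) (m : ℝ) (P : Finset ℕ) : (∀ l ∈ P, 0 ≤ g l ∧ g l ≤ m) → ∀ r : ℕ,
    (∑ l ∈ P, g l - r * m) * bhE g r P ≤ ((r : ℝ) + 1) * bhE g (r + 1) P := by
  induction P using Finset.induction_on with
  | empty =>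
    intro _ r
    rw [E_empty]
    rcases r with _ | r
    · simp
    · rw [E_empty]; simp
  | insert q P hq ih =>
    intro hg r
    have hgP : ∀ l ∈ P, 0 ≤ g l ∧ g l ≤ m := fun l hl => hg l (mem_insert_of_mem hl)
    have hgq := hg q (mem_insert_self q P)
    rw [sum_insert hq, bhE_insert g r P q hq]
    have h1 := ih hgP r
    rcases r with _ | r
    · simp only [Nat.cast_zero, zero_add, bhE_zero, zero_mul, sub_zero, mul_one, one_mul] at h1 ⊢
      linarith
    · rw [bhE_insert g r P q hq]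
      have h0 := ih hgP r
      have e0 := bhE_nonneg g r P fun l hl => (hgP l hl).1
      push_cast at h1 h0 ⊢
      have h3 := mul_le_mul_of_nonneg_left h0 hgq.1
      have h4 : 0 ≤ g q * ((m - g q) * bhE g r P) :=
        mul_nonneg hgq.1 (mul_nonneg (by linarith [hgq.2]) e0)
      nlinarith

lemma E_pow (g : ℕ → ℝ) (m : ℝ) (P : Finset ℕ) (hg : ∀ l ∈ P, 0 ≤ g l ∧ g l ≤ m) (k : ℕ) (hm : 0 ≤ m)
    (hk : (k : ℝ) * m ≤ (∑ l ∈ P, g l) / 2) : ∀ r : ℕ, r ≤ k →
    ((∑ l ∈ P, g l) / 2) ^ r / r.factorial ≤ bhE g r P := by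
  intro r
  induction r with
  | zero => intro _; rw [bhE_zero]; simp
  | succ r ih =>
    intro hr
    have h1 := ih (by omega)
    have h2 := E_low g m P hg r
    set S := ∑ l ∈ P, g l with hS
    have hS0 : 0 ≤ S := sum_nonneg fun l hl => (hg l hl).1
    have h3 : (r : ℝ) * m ≤ S / 2 := by
      refine le_trans ?_ hk
      apply mul_le_mul_of_nonneg_right _ hm
      exact_mod_cast (by omega : r ≤ k)
    have e0 := bhE_nonneg g r P fun l hl => (hg l hl).1
    have h4 : (S / 2) * ((S / 2) ^ r / r.factorial) ≤ ((r : ℝ) + 1) * bhE g (r + 1) P :=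
      calc (S / 2) * ((S / 2) ^ r / r.factorial) ≤ (S / 2) * bhE g r P := by gcongr
        _ ≤ (S - r * m) * bhE g r P := by
            apply mul_le_mul_of_nonneg_right _ e0
            linarith
        _ ≤ _ := h2
    have hf : (0 : ℝ) < r.factorial := by exact_mod_cast Nat.factorial_pos _
    rw [Nat.factorial_succ, div_le_iff₀ (by positivity)]
    push_cast
    calc (S / 2) ^ (r + 1) = (S / 2) * ((S / 2) ^ r / r.factorial) * r.factorial := by
          field_simp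
          ring
      _ ≤ ((r : ℝ) + 1) * bhE g (r + 1) P * r.factorial := by gcongr
      _ = _ := by ring

lemma A_succ (g : ℕ → ℝ) (r : ℕ) (P : Finset ℕ) :
    bhA g (r + 1) P = bhA g r P + (-1) ^ (r + 1) * bhE g (r + 1) P := by
  classical
  unfold bhA bhE
  have h1 : P.powerset.filter (fun U => U.card ≤ r + 1) =
      P.powerset.filter (fun U => U.card ≤ r) ∪ P.powersetCard (r + 1) := by
    ext U
    simp only [mem_filter, mem_union, mem_powerset, mem_powersetCard]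
    constructor
    · rintro ⟨h2, h3⟩
      rcases Nat.lt_or_ge U.card (r + 1) with h | h
      · exact Or.inl ⟨h2, by omega⟩
      · exact Or.inr ⟨h2, by omega⟩
    · rintro (⟨h2, h3⟩ | ⟨h2, h3⟩)
      · exact ⟨h2, by omega⟩
      · exact ⟨h2, by omega⟩
  have hd : Disjoint (P.powerset.filter (fun U => U.card ≤ r)) (P.powersetCard (r + 1)) := by
    rw [disjoint_left]
    intro U h2 h3
    rw [mem_filter] at h2
    rw [mem_powersetCard] at h3
    omega
  rw [h1, sum_union hd]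
  congr 1
  rw [mul_sum]
  refine sum_congr rfl fun U hU => ?_
  rw [(mem_powersetCard.1 hU).2]

lemma inc_exc (P : Finset ℕ) (hP : ∀ p ∈ P, p.Prime) (x : ℕ) :
    (((Ioc 0 x).filter (fun m => ∀ p ∈ P, ¬ p ∣ m)).card : ℝ) =
      ∑ U ∈ P.powerset, (-1) ^ U.card * ((x / ∏ p ∈ U, p : ℕ) : ℝ) := by
  classical
  have h1 : ∀ m : ℕ, (if ∀ p ∈ P, ¬ p ∣ m then (1 : ℝ) else 0) =
      ∑ U ∈ P.powerset, (-1) ^ U.card * (if (∏ p ∈ U, p) ∣ m then (1 : ℝ) else 0) := by
    intro m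
    have e1 : (if ∀ p ∈ P, ¬ p ∣ m then (1 : ℝ) else 0) = ∏ p ∈ P, ((-if p ∣ m then (1 : ℝ) else 0) + 1) := by
      have : ∀ p ∈ P, ((-if p ∣ m then (1 : ℝ) else 0) + 1) = (if ¬ p ∣ m then 1 else 0) := by
        intro p _
        split_ifs <;> simp_all
      rw [prod_congr rfl this, Finset.prod_ite_zero]
      simp
    rw [e1, Finset.prod_add]
    refine sum_congr rfl fun U hU => ?_
    rw [prod_const_one, mul_one, Finset.prod_neg, Finset.prod_ite_zero, prod_const_one]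
    congr 1
    have h2 := dvd_prod_iff (fun p hp => hP p (mem_powerset.1 hU hp)) m
    simp only [h2]
  rw [card_filter]
  push_cast
  rw [sum_congr rfl fun m _ => h1 m, sum_comm]
  refine sum_congr rfl fun U hU => ?_
  rw [← mul_sum]
  congr 1
  rw [← Nat.Ioc_filter_dvd_card_eq_div x (∏ p ∈ U, p), card_filter]
  push_cast
  rfl

/-- the basic count -/
lemma deficit_core (P : Finset ℕ) (z1 z k : ℕ) (hk : 1 ≤ k) (hke : Even k) (hz1 : 1 ≤ z1) (hz : 1 ≤ z)
    (hP : ∀ p ∈ P, p.Prime ∧ z1 < p ∧ p ≤ z)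
    (hs : ∑ p ∈ P, 1 / (p : ℝ) ≤ 1) :
    (((Ioc 0 (z1 ^ k)).filter (fun m => ∀ p ∈ P, ¬ p ∣ m)).card : ℝ) ≤
      (z1 : ℝ) ^ k * (VV P - bhE (fun p => 1 / (p : ℝ)) k P / 2) + (z : ℝ) ^ (k - 1) := by
  classical
  have hpp : ∀ p ∈ P, p.Prime := fun p hp => (hP p hp).1
  set g : ℕ → ℝ := fun p => 1 / (p : ℝ) with hg
  set x : ℕ := z1 ^ k with hx
  have hx0 : (0 : ℝ) < x := by exact_mod_cast pow_pos (by omega : 0 < z1) k
  have hpos : ∀ U ∈ P.powerset, (0 : ℝ) < ((∏ p ∈ U, p : ℕ) : ℝ) := fun U hU => by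
    exact_mod_cast prod_pos fun p hp => (hpp p (mem_powerset.1 hU hp)).pos
  rw [inc_exc P hpp x]
  -- large sets do not contribute
  have h1 : ∑ U ∈ P.powerset, (-1 : ℝ) ^ U.card * ((x / ∏ p ∈ U, p : ℕ) : ℝ) =
      ∑ U ∈ P.powerset.filter (fun U => U.card ≤ k - 1), (-1 : ℝ) ^ U.card * ((x / ∏ p ∈ U, p : ℕ) : ℝ) := by
    symm
    apply sum_filter_of_ne
    intro U hU hne
    by_contra hcon
    apply hne
    have hc : k ≤ U.card := by omega
    have h2 : x < ∏ p ∈ U, p := by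
      have hUs := mem_powerset.1 hU
      have hne' : U.Nonempty := card_pos.1 (by omega)
      calc x = z1 ^ k := hx
        _ ≤ z1 ^ U.card := Nat.pow_le_pow_right hz1 hc
        _ = ∏ _p ∈ U, z1 := by rw [prod_const]
        _ < ∏ p ∈ U, p := by
            apply prod_lt_prod_of_nonempty (fun _ _ => by omega) (fun p hp => (hP p (hUs hp)).2.1) hne'
    rw [Nat.div_eq_of_lt h2]
    simp
  rw [h1]
  have h2 : ∀ U ∈ P.powerset.filter (fun U => U.card ≤ k - 1), (-1 : ℝ) ^ U.card * ((x / ∏ p ∈ U, p : ℕ) : ℝ) ≤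
      (x : ℝ) * ((-1) ^ U.card * ∏ p ∈ U, g p) + 1 := by
    intro U hU
    have hU' := (mem_filter.1 hU).1
    have hp := hpos U hU'
    have e1 : ∏ p ∈ U, g p = 1 / ((∏ p ∈ U, p : ℕ) : ℝ) := by
      push_cast
      rw [one_div, ← prod_inv_distrib]
      simp only [hg, one_div]
    have h3 : ((x / ∏ p ∈ U, p : ℕ) : ℝ) ≤ (x : ℝ) / ((∏ p ∈ U, p : ℕ) : ℝ) := Nat.cast_div_le
    have h4 : (x : ℝ) / ((∏ p ∈ U, p : ℕ) : ℝ) < ((x / ∏ p ∈ U, p : ℕ) : ℝ) + 1 := by
      rw [div_lt_iff₀ hp]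
      have := Nat.lt_div_mul_add (a := x) (b := ∏ p ∈ U, p) (by exact_mod_cast hp)
      have h5 : (x : ℝ) < ((x / ∏ p ∈ U, p : ℕ) : ℝ) * ((∏ p ∈ U, p : ℕ) : ℝ) + ((∏ p ∈ U, p : ℕ) : ℝ) := by
        exact_mod_cast this
      linarith
    rw [e1]
    have e2 : (x : ℝ) * ((-1) ^ U.card * (1 / ((∏ p ∈ U, p : ℕ) : ℝ))) =
        (-1) ^ U.card * ((x : ℝ) / ((∏ p ∈ U, p : ℕ) : ℝ)) := by ring
    rw [e2]
    rcases Nat.even_or_odd U.card with h | h
    · rw [h.neg_one_pow]; linarith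
    · rw [h.neg_one_pow]; linarith
  have h3 : ∑ U ∈ P.powerset.filter (fun U => U.card ≤ k - 1), (-1 : ℝ) ^ U.card * ((x / ∏ p ∈ U, p : ℕ) : ℝ) ≤
      (x : ℝ) * bhA g (k - 1) P + ((P.powerset.filter (fun U => U.card ≤ k - 1)).card : ℝ) := by
    refine (sum_le_sum h2).trans (le_of_eq ?_)
    rw [sum_add_distrib, ← mul_sum, sum_const, nsmul_eq_mul, mul_one]
    rfl
  have h4 : ((P.powerset.filter (fun U => U.card ≤ k - 1)).card : ℝ) ≤ (z : ℝ) ^ (k - 1) := by
    have h5 : P.powerset.filter (fun U => U.card ≤ k - 1) ⊆ P.powerset.filter (fun U => ∏ p ∈ U, p ≤ z ^ (k - 1)) := by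
      intro U hU
      rw [mem_filter] at hU ⊢
      refine ⟨hU.1, ?_⟩
      have hUs := mem_powerset.1 hU.1
      rcases Nat.eq_zero_or_pos U.card with h0 | h0
      · rw [card_eq_zero.1 h0, prod_empty]
        exact Nat.one_le_pow _ _ hz
      · calc ∏ p ∈ U, p ≤ ∏ _p ∈ U, z := prod_le_prod' fun p hp => (hP p (hUs hp)).2.2
          _ = z ^ U.card := by rw [prod_const]
          _ ≤ z ^ (k - 1) := Nat.pow_le_pow_right hz hU.2
    have h6 := card_le_card h5
    have h7 := h6.trans (Pool.Agent.TH882.FL.card_le P hpp (z ^ (k - 1)))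
    exact_mod_cast h7
  -- Bonferroni
  have hg1 : ∀ l ∈ P, 0 ≤ g l ∧ g l ≤ 1 := by
    intro l hl
    have : (1 : ℝ) < l := by exact_mod_cast (hpp l hl).one_lt
    refine ⟨by simp only [hg]; positivity, ?_⟩
    simp only [hg]
    rw [div_le_one (by linarith)]
    exact this.le
  have h5 := (bh_bonf g P hg1 (k + 1)).1
  have ho : Odd (k + 1) := hke.add_one
  rw [ho.neg_one_pow] at h5
  have e1 : bhA g (k + 1) P = bhA g (k - 1) P + bhE g k P - bhE g (k + 1) P := by
    rw [A_succ g k P, ho.neg_one_pow]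
    obtain ⟨k', rfl⟩ : ∃ k', k = k' + 1 := ⟨k - 1, by omega⟩
    rw [A_succ g k' P, hke.neg_one_pow]
    simp only [Nat.add_sub_cancel]
    ring
  have h6 := E_up g P (fun l hl => (hg1 l hl).1) k
  have e0 := bhE_nonneg g k P fun l hl => (hg1 l hl).1
  have e0' := bhE_nonneg g (k + 1) P fun l hl => (hg1 l hl).1
  have hk1 : (1 : ℝ) ≤ k := by exact_mod_cast hk
  have h7 : 2 * bhE g (k + 1) P ≤ bhE g k P := by
    have h8 : (∑ l ∈ P, g l) * bhE g k P ≤ 1 * bhE g k P := mul_le_mul_of_nonneg_right hs e0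
    nlinarith
  have h8 : bhA g (k - 1) P ≤ VV P - bhE g k P / 2 := by
    have : VV P = ∏ l ∈ P, (1 - g l) := rfl
    rw [this]
    linarith
  have hxk : (x : ℝ) = (z1 : ℝ) ^ k := by rw [hx]; push_cast; rfl
  rw [← hxk]
  calc _ ≤ (x : ℝ) * bhA g (k - 1) P + ((P.powerset.filter (fun U => U.card ≤ k - 1)).card : ℝ) := h3
    _ ≤ _ := add_le_add (mul_le_mul_of_nonneg_left h8 hx0.le) h4

end Pool.Agent.K4H19.GM
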