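import Pool.Agent.K4H19.GM.Def

/-! Windows with fewer integers free of small primes than expected: the choice of parameters. -/

set_option autoImplicit false

open Finset Filter
open scoped Topology

namespace Pool.Agent.K4H19.GM

open Pool.Agent.Helper112.LP.Kbh

lemma tlog : Tendsto (fun n : ℕ => Real.log n) atTop atTop :=
  Real.tendsto_log_atTop.comp (tendsto_natCast_atTop_atTop (R := ℝ))

/-- `⌈z ^ θ⌉` -/
noncomputable def zc (θ : ℝ) (z : ℕ) : ℕ := ⌈(z : ℝ) ^ θ⌉₊

lemma zc_tendsto {θ : ℝ} (hθ : 0 < θ) : Tendsto (zc θ) atTop atTop :=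
  tendsto_nat_ceil_atTop.comp ((tendsto_rpow_atTop hθ).comp (tendsto_natCast_atTop_atTop (R := ℝ)))

lemma zc_log {θ : ℝ} (hθ : 0 < θ) : Tendsto (fun z : ℕ => Real.log (zc θ z) / Real.log z) atTop (𝓝 θ) := by
  have h1 : Tendsto (fun z : ℕ => θ + Real.log 2 / Real.log z) atTop (𝓝 (θ + 0)) :=
    (tlog.const_div_atTop _).const_add _
  rw [add_zero] at h1
  apply tendsto_of_tendsto_of_tendsto_of_le_of_le' tendsto_const_nhds h1
  · filter_upwards [eventually_ge_atTop 2] with z hz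
    have hz' : (2 : ℝ) ≤ z := by exact_mod_cast hz
    have hl : 0 < Real.log z := Real.log_pos (by linarith)
    rw [le_div_iff₀ hl, ← Real.log_rpow (by linarith)]
    exact Real.log_le_log (Real.rpow_pos_of_pos (by linarith) _) (Nat.le_ceil _)
  · filter_upwards [eventually_ge_atTop 2] with z hz
    have hz' : (2 : ℝ) ≤ z := by exact_mod_cast hz
    have hl : 0 < Real.log z := Real.log_pos (by linarith)
    have hp : 1 ≤ (z : ℝ) ^ θ := Real.one_le_rpow (by linarith) hθ.le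
    have h2 : (zc θ z : ℝ) ≤ 2 * (z : ℝ) ^ θ := by
      have := (Nat.ceil_lt_add_one (show 0 ≤ (z : ℝ) ^ θ by positivity)).le
      unfold zc
      linarith
    have h3 : (0 : ℝ) < zc θ z := lt_of_lt_of_le (by linarith) (Nat.le_ceil ((z : ℝ) ^ θ))
    have h4 : Real.log (zc θ z) ≤ Real.log 2 + θ * Real.log z := by
      rw [← Real.log_rpow (by linarith), ← Real.log_mul (by norm_num) (by linarith)]
      exact Real.log_le_log h3 h2
    rw [div_le_iff₀ hl, add_mul, div_mul_cancel₀ _ hl.ne']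
    linarith

/-- sums of `1 / p` over `(z ^ θ, z]` -/
lemma sum_inv {θ : ℝ} (hθ : 0 < θ) (hθ1 : θ < 1) :
    Tendsto (fun z : ℕ => ∑ p ∈ (Pr z).filter (fun p => zc θ z < p), 1 / (p : ℝ)) atTop (𝓝 (-Real.log θ)) := by
  obtain ⟨M, hM⟩ := Pool.Agent.H305R2.mertens_inv_tendsto
  have h1 := hM.comp (zc_tendsto hθ)
  have h2 := hM.sub h1
  rw [sub_self] at h2
  have h3 : Tendsto (fun z : ℕ => -Real.log (Real.log (zc θ z) / Real.log z)) atTop (𝓝 (-Real.log θ)) :=
    ((Real.continuousAt_log hθ.ne').tendsto.comp (zc_log hθ)).neg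
  have h4 := h2.add h3
  rw [zero_add] at h4
  refine h4.congr' ?_
  have e1 := (zc_tendsto hθ).eventually_ge_atTop 3
  have e2 : ∀ᶠ z : ℕ in atTop, (2 : ℝ) ≤ (z : ℝ) ^ (1 - θ) :=
    ((tendsto_rpow_atTop (by linarith)).comp (tendsto_natCast_atTop_atTop (R := ℝ))).eventually_ge_atTop _
  filter_upwards [e1, e2, eventually_ge_atTop 3] with z hz1 hz2 hz
  have hz' : (3 : ℝ) ≤ z := by exact_mod_cast hz
  have hl : 0 < Real.log z := Real.log_pos (by linarith)
  have hl1 : 0 < Real.log (zc θ z) := Real.log_pos (by exact_mod_cast (by omega : 1 < zc θ z))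
  have hle : zc θ z ≤ z := by
    have h5 : (zc θ z : ℝ) ≤ z := by
      have h6 := (Nat.ceil_lt_add_one (show 0 ≤ (z : ℝ) ^ θ by positivity)).le
      have h7 : 1 ≤ (z : ℝ) ^ θ := Real.one_le_rpow (by linarith) hθ.le
      have h8 : (z : ℝ) ^ θ * (z : ℝ) ^ (1 - θ) = z := by
        rw [← Real.rpow_add (by linarith)]; simp
      unfold zc
      nlinarith
    exact_mod_cast h5
  simp only [Function.comp]
  rw [Real.log_div hl1.ne' hl.ne']
  have e3 : (Icc 1 z).filter Nat.Prime = (Pr z).filter (fun p => zc θ z < p) ∪ (Icc 1 (zc θ z)).filter Nat.Prime := by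
    ext p
    simp only [mem_union, mem_filter, mem_Icc, mem_Pr]
    constructor
    · rintro ⟨h, hp⟩
      rcases Nat.lt_or_ge (zc θ z) p with h6 | h6
      · exact Or.inl ⟨⟨hp, h.2⟩, h6⟩
      · exact Or.inr ⟨⟨h.1, h6⟩, hp⟩
    · rintro (⟨⟨hp, h⟩, _⟩ | ⟨⟨h, h'⟩, hp⟩)
      · exact ⟨⟨hp.one_lt.le, h⟩, hp⟩
      · exact ⟨⟨h, h'.trans hle⟩, hp⟩
  have e4 : Disjoint ((Pr z).filter (fun p => zc θ z < p)) ((Icc 1 (zc θ z)).filter Nat.Prime) := by
    rw [disjoint_left]
    intro p h h'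
    rw [mem_filter] at h h'
    have := (mem_Icc.1 h'.1).2
    omega
  rw [e3, sum_union e4]
  ring

/-- few integers up to `x` without prime factors from `P` -/
theorem deficit (k : ℕ) (hk : 2 ≤ k) (hke : Even k) : ∃ δ : ℝ, 0 < δ ∧ δ ≤ 1 / 2 ∧ ∀ᶠ z : ℕ in atTop,
    ∃ (P : Finset ℕ) (x : ℕ), (∀ p ∈ P, p.Prime ∧ p ≤ z) ∧ (z : ℝ) ^ ((k : ℝ) - 1 / 2) ≤ x ∧ x ≤ z ^ k ∧
      (((Ioc 0 x).filter (fun m => ∀ p ∈ P, ¬ p ∣ m)).card : ℝ) ≤ (1 - δ) * (x * VV P) := by
  have hkr : (2 : ℝ) ≤ k := by exact_mod_cast hk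
  set θ : ℝ := 1 - 1 / (2 * k) with hθd
  have hk4 : 1 / (2 * (k : ℝ)) ≤ 1 / 4 := by
    apply one_div_le_one_div_of_le (by norm_num)
    linarith
  have hk0 : 0 < 1 / (2 * (k : ℝ)) := by positivity
  have hθ : 3 / 4 ≤ θ := by rw [hθd]; linarith
  have hθ1 : θ < 1 := by rw [hθd]; linarith
  have hlow : 1 / (2 * (k : ℝ)) ≤ -Real.log θ := by
    have := Real.log_le_sub_one_of_pos (show 0 < θ by linarith)
    rw [hθd] at this ⊢
    linarith
  have hup : -Real.log θ ≤ 1 / 3 := by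
    have := Real.one_sub_inv_le_log_of_pos (show 0 < θ by linarith)
    have h1 : θ⁻¹ ≤ 4 / 3 := by
      rw [inv_le_comm₀ (by linarith) (by norm_num)]
      linarith
    linarith
  set e0 : ℝ := (1 / (8 * (k : ℝ))) ^ k / k.factorial with he0
  have hf : (0 : ℝ) < k.factorial := by exact_mod_cast Nat.factorial_pos _
  have he0p : 0 < e0 := by positivity
  have he01 : e0 ≤ 1 := by
    rw [he0, div_le_one hf]
    have h1 : (1 / (8 * (k : ℝ))) ^ k ≤ 1 := by
      apply pow_le_one₀ (by positivity)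
      rw [div_le_one (by positivity)]
      linarith
    have h2 : (1 : ℝ) ≤ k.factorial := by exact_mod_cast Nat.factorial_pos _
    linarith
  refine ⟨e0 / 4, by positivity, by linarith, ?_⟩
  have t1 := sum_inv (show 0 < θ by linarith) hθ1
  have a1 := t1.eventually_lt_const (show -Real.log θ < 1 / 2 by linarith)
  have a2 := t1.eventually_const_lt (show 1 / (4 * (k : ℝ)) < -Real.log θ by
    refine lt_of_lt_of_le ?_ hlow
    apply one_div_lt_one_div_of_lt (by positivity)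
    linarith)
  have a3 : ∀ᶠ z : ℕ in atTop, (8 * (k : ℝ) ^ 2) ≤ zc θ z :=
    ((tendsto_natCast_atTop_atTop (R := ℝ)).comp (zc_tendsto (show 0 < θ by linarith))).eventually_ge_atTop _
  have a4 : ∀ᶠ z : ℕ in atTop, 8 / e0 ≤ (z : ℝ) ^ (1 / 2 : ℝ) :=
    ((tendsto_rpow_atTop (by norm_num)).comp (tendsto_natCast_atTop_atTop (R := ℝ))).eventually_ge_atTop _
  filter_upwards [a1, a2, a3, a4, eventually_ge_atTop 2] with z b1 b2 b3 b4 hz
  have hzr : (2 : ℝ) ≤ z := by exact_mod_cast hz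
  set P := (Pr z).filter (fun p => zc θ z < p) with hP
  set z1 := zc θ z with hz1
  have hz1r : (1 : ℝ) ≤ z1 := by nlinarith
  have hz1n : 1 ≤ z1 := by exact_mod_cast hz1r
  have hPp : ∀ p ∈ P, p.Prime ∧ z1 < p ∧ p ≤ z := by
    intro p hp
    rw [hP, mem_filter, mem_Pr] at hp
    exact ⟨hp.1.1, hp.2, hp.1.2⟩
  have h1 := deficit_core P z1 z k (by omega) hke hz1n (by omega) hPp (by linarith)
  set g : ℕ → ℝ := fun p => 1 / (p : ℝ) with hg
  have hgm : ∀ l ∈ P, 0 ≤ g l ∧ g l ≤ 1 / (z1 : ℝ) := by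
    intro l hl
    refine ⟨by simp only [hg]; positivity, ?_⟩
    simp only [hg]
    apply one_div_le_one_div_of_le (by linarith)
    exact_mod_cast (hPp l hl).2.1.le
  have h2 := E_pow g (1 / (z1 : ℝ)) P hgm k (by positivity) (by
    have h3 : (k : ℝ) * (1 / z1) ≤ 1 / (8 * k) := by
      rw [mul_one_div, div_le_div_iff₀ (by linarith) (by positivity)]
      nlinarith
    have h4 : 1 / (8 * (k : ℝ)) = (1 / (4 * k)) / 2 := by field_simp; norm_num
    rw [h4] at h3
    linarith) k le_rfl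
  have h3 : e0 ≤ bhE g k P := by
    refine le_trans ?_ h2
    rw [he0]
    apply div_le_div_of_nonneg_right _ hf.le
    apply pow_le_pow_left₀ (by positivity)
    have h4 : 1 / (8 * (k : ℝ)) = (1 / (4 * k)) / 2 := by field_simp; norm_num
    rw [h4]
    linarith
  have hpp : ∀ p ∈ P, p.Prime := fun p hp => (hPp p hp).1
  have hV1 := VV_le_one hpp
  have hV0 := VV_pos hpp
  have hV2 : 1 / 2 ≤ VV P := by
    have hg1 : ∀ l ∈ P, 0 ≤ g l ∧ g l ≤ 1 := by
      intro l hl
      refine ⟨(hgm l hl).1, (hgm l hl).2.trans ?_⟩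
      rw [div_le_one (by linarith)]
      exact hz1r
    have h4 := (bh_bonf g P hg1 1).1
    have h5 := A_succ g 0 P
    have h6 : bhE g 1 P = ∑ l ∈ P, g l := by
      unfold bhE
      rw [powersetCard_one, sum_map]
      simp
    rw [zero_add, bhA_zero, h6, pow_one] at h5
    rw [h5, pow_one] at h4
    have : VV P = ∏ l ∈ P, (1 - g l) := rfl
    rw [this]
    linarith
  have hz1z : z1 ≤ z := by
    have hne : P.Nonempty := by
      rw [nonempty_iff_ne_empty]
      intro h0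
      rw [h0, sum_empty] at b2
      have : 0 < 1 / (4 * (k : ℝ)) := by positivity
      linarith
    obtain ⟨q, hq⟩ := hne
    exact ((hPp q hq).2.1.trans_le (hPp q hq).2.2).le
  refine ⟨P, z1 ^ k, fun p hp => ⟨(hPp p hp).1, (hPp p hp).2.2⟩, ?_, Nat.pow_le_pow_left hz1z k, ?_⟩
  · -- the size of `x`
    push_cast
    calc (z : ℝ) ^ ((k : ℝ) - 1 / 2) = ((z : ℝ) ^ θ) ^ k := by
          rw [← Real.rpow_natCast, ← Real.rpow_mul (by linarith)]
          congr 1
          rw [hθd]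
          field_simp
      _ ≤ (z1 : ℝ) ^ k := by
          apply pow_le_pow_left₀ (by positivity)
          exact Nat.le_ceil _
  · refine h1.trans ?_
    push_cast
    set X : ℝ := (z1 : ℝ) ^ k with hX
    have hX0 : 0 < X := by positivity
    have hXlow : (z : ℝ) ^ (k - 1) * (z : ℝ) ^ (1 / 2 : ℝ) ≤ X := by
      calc (z : ℝ) ^ (k - 1) * (z : ℝ) ^ (1 / 2 : ℝ) = ((z : ℝ) ^ θ) ^ k := by
            rw [← Real.rpow_natCast (z : ℝ) (k - 1), ← Real.rpow_add (by linarith), ← Real.rpow_natCast _ k,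
              ← Real.rpow_mul (by linarith)]
            congr 1
            rw [hθd]
            push_cast [Nat.cast_sub (by omega : 1 ≤ k)]
            field_simp
            ring
        _ ≤ X := by
            apply pow_le_pow_left₀ (by positivity)
            exact Nat.le_ceil _
    have h4 : (z : ℝ) ^ (k - 1) ≤ e0 / 8 * X := by
      have h5 : (z : ℝ) ^ (k - 1) * (8 / e0) ≤ X :=
        (mul_le_mul_of_nonneg_left b4 (by positivity)).trans hXlow
      have h6 : (z : ℝ) ^ (k - 1) = e0 / 8 * ((z : ℝ) ^ (k - 1) * (8 / e0)) := by field_simp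
      rw [h6]
      gcongr
    have h5 : X * (e0 / 2) ≤ X * (bhE g k P / 2) := by gcongr
    have h6 : e0 / 8 * X ≤ e0 / 4 * (X * VV P) := by
      have : X * (1 / 2) ≤ X * VV P := by gcongr
      nlinarith
    have h7 : e0 / 2 * (X * VV P) ≤ X * (e0 / 2) := by
      have : X * VV P ≤ X * 1 := by gcongr
      nlinarith
    nlinarith

/-- the same in a window -/
lemma window_avg (F : ℕ → Prop) [DecidablePred F] (x y : ℕ) (θ θ' : ℝ) (hyx : y ≤ x)
    (h : (((Ioc 0 x).filter F).card : ℝ) ≤ θ * x) (hθ : θ * x ≤ θ' * (x - y)) (hθ' : 0 ≤ θ') (hy : 1 ≤ y) :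
    ∃ a : ℕ, a + y ≤ x ∧ (((Ioc a (a + y)).filter F).card : ℝ) ≤ θ' * y := by
  classical
  by_contra hcon
  push Not at hcon
  have h1 : ∑ a ∈ range (x - y + 1), (((Ioc a (a + y)).filter F).card : ℝ) ≤ y * ((Ioc 0 x).filter F).card := by
    have h2 : ∀ a ∈ range (x - y + 1), (((Ioc a (a + y)).filter F).card : ℝ) =
        ∑ m ∈ (Ioc 0 x).filter F, (if a < m ∧ m ≤ a + y then (1 : ℝ) else 0) := by
      intro a ha
      rw [mem_range] at ha
      rw [← sum_filter, sum_const, nsmul_eq_mul, mul_one]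
      congr 2
      ext m
      simp only [mem_filter, mem_Ioc]
      constructor
      · rintro ⟨⟨h3, h4⟩, h5⟩
        exact ⟨⟨⟨by omega, by omega⟩, h5⟩, h3, h4⟩
      · rintro ⟨⟨_, h5⟩, h3, h4⟩
        exact ⟨⟨h3, h4⟩, h5⟩
    rw [sum_congr rfl h2, sum_comm]
    have h3 : ∀ m ∈ (Ioc 0 x).filter F, ∑ a ∈ range (x - y + 1), (if a < m ∧ m ≤ a + y then (1 : ℝ) else 0) ≤ y := by
      intro m _
      rw [← sum_filter, sum_const, nsmul_eq_mul, mul_one]
      have h4 : (range (x - y + 1)).filter (fun a => a < m ∧ m ≤ a + y) ⊆ Ico (m - y) m := by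
        intro a ha
        rw [mem_filter] at ha
        rw [mem_Ico]
        omega
      have h5 := card_le_card h4
      rw [Nat.card_Ico] at h5
      exact_mod_cast h5.trans (by omega)
    refine (sum_le_sum h3).trans (le_of_eq ?_)
    rw [sum_const, nsmul_eq_mul, mul_comm]
  have h2 : (x - y + 1 : ℕ) * (θ' * y) ≤ ∑ a ∈ range (x - y + 1), (((Ioc a (a + y)).filter F).card : ℝ) := by
    calc ((x - y + 1 : ℕ) : ℝ) * (θ' * y) = ∑ _a ∈ range (x - y + 1), θ' * (y : ℝ) := by
          rw [sum_const, card_range, nsmul_eq_mul]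
      _ ≤ _ := sum_le_sum fun a ha => by
          rw [mem_range] at ha
          exact (hcon a (by omega)).le
  have hy' : (1 : ℝ) ≤ y := by exact_mod_cast hy
  have e1 : ((x - y + 1 : ℕ) : ℝ) = (x : ℝ) - y + 1 := by
    push_cast [Nat.cast_sub hyx]
    ring
  rw [e1] at h2
  have h3 : (y : ℝ) * ((Ioc 0 x).filter F).card ≤ y * (θ' * (x - y)) := by
    apply mul_le_mul_of_nonneg_left (h.trans hθ) (by linarith)
  -- strictness
  have h4 : ((x : ℝ) - y + 1) * (θ' * y) ≤ y * (θ' * (x - y)) := h2.trans (h1.trans h3)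
  have h5 : θ' * y ≤ 0 := by nlinarith
  have h6 : θ' = 0 := by
    rcases eq_or_lt_of_le hθ' with h7 | h7
    · exact h7.symm
    · exact absurd h5 (not_le.2 (by positivity))
  -- then the window sums vanish but every window has a positive count
  have h7 := hcon 0 (by omega)
  have h8 : (((Ioc 0 (0 + y)).filter F).card : ℝ) ≤ ((Ioc 0 x).filter F).card := by
    exact_mod_cast card_le_card (filter_subset_filter _ (Ioc_subset_Ioc le_rfl (by omega)))
  have h9 := h.trans hθ
  rw [h6] at h7 h9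
  simp only [zero_mul] at h7 h9
  linarith

end Pool.Agent.K4H19.GM
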