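import Pool.Agent.K4H19.GM.Imp

/-! The sieve: windows and progressions. -/

set_option autoImplicit false

open Finset Filter

namespace Pool.Agent.K4H19.GM

/-- the primes up to `t` -/
def Pr (t : ℕ) : Finset ℕ := (Icc 1 t).filter Nat.Prime

lemma mem_Pr {t p : ℕ} : p ∈ Pr t ↔ p.Prime ∧ p ≤ t := by
  unfold Pr
  rw [mem_filter, mem_Icc]
  exact ⟨fun h => ⟨h.2, h.1.2⟩, fun h => ⟨⟨h.1.one_lt.le, h.2⟩, h.1⟩⟩

/-- the sieving density -/
noncomputable def VV (P : Finset ℕ) : ℝ := ∏ p ∈ P, (1 - 1 / (p : ℝ))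

lemma VV_pos {P : Finset ℕ} (hP : ∀ p ∈ P, p.Prime) : 0 < VV P := by
  refine prod_pos fun p hp => ?_
  have h1 : (1 : ℝ) < p := by exact_mod_cast (hP p hp).one_lt
  rw [sub_pos, div_lt_one (by linarith)]
  exact h1

lemma VV_le_one {P : Finset ℕ} (hP : ∀ p ∈ P, p.Prime) : VV P ≤ 1 := by
  refine prod_le_one (fun p hp => ?_) fun p hp => ?_
  · have h1 : (1 : ℝ) < p := by exact_mod_cast (hP p hp).one_lt
    rw [sub_nonneg, div_le_one (by linarith)]
    exact h1.le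
  · have : (0 : ℝ) ≤ 1 / (p : ℝ) := by positivity
    linarith

lemma VV_anti {P Q : Finset ℕ} (hQ : ∀ p ∈ Q, p.Prime) (h : P ⊆ Q) : VV Q ≤ VV P := by
  unfold VV
  rw [← prod_sdiff h]
  have h1 : ∏ p ∈ Q \ P, (1 - 1 / (p : ℝ)) ≤ 1 := VV_le_one fun p hp => hQ p (mem_sdiff.1 hp).1
  have h2 : 0 ≤ ∏ p ∈ P, (1 - 1 / (p : ℝ)) := (VV_pos fun p hp => hQ p (h hp)).le
  nlinarith

/-- crude lower bound -/
lemma VV_crude (z : ℕ) (hz : 1 ≤ z) {P : Finset ℕ} (hP : ∀ p ∈ P, p.Prime ∧ p ≤ z) : 1 / (z : ℝ) ≤ VV P := by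
  have h1 : ∀ z : ℕ, 1 ≤ z → ∏ m ∈ Ioc 1 z, (1 - 1 / (m : ℝ)) = 1 / (z : ℝ) := by
    intro z hz
    induction z, hz using Nat.le_induction with
    | base => simp
    | succ n hn ih =>
      rw [← Finset.insert_Ioc_right_eq_Ioc_add_one (by omega), prod_insert (by simp), ih]
      have : (0 : ℝ) < n := by exact_mod_cast hn
      push_cast
      field_simp
      ring
  rw [← h1 z hz]
  have hsub : P ⊆ Ioc 1 z := fun p hp => mem_Ioc.2 ⟨(hP p hp).1.one_lt, (hP p hp).2⟩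
  unfold VV
  rw [← prod_sdiff hsub]
  have hn : ∀ m ∈ Ioc 1 z, 0 ≤ 1 - 1 / (m : ℝ) := by
    intro m hm
    have : (1 : ℝ) < m := by exact_mod_cast (mem_Ioc.1 hm).1
    rw [sub_nonneg, div_le_one (by linarith)]
    exact this.le
  have h2 : ∏ m ∈ Ioc 1 z \ P, (1 - 1 / (m : ℝ)) ≤ 1 := by
    refine prod_le_one (fun m hm => hn m (mem_sdiff.1 hm).1) fun m hm => ?_
    have : (0 : ℝ) ≤ 1 / (m : ℝ) := by positivity
    linarith
  have h3 : 0 ≤ ∏ p ∈ P, (1 - 1 / (p : ℝ)) := prod_nonneg fun p hp => hn p (hsub hp)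
  nlinarith

/-- counting in progressions -/
lemma cnt_prog (D c u M d : ℕ) (hd : 0 < d) (hD : Nat.Coprime D d) :
    |(((Ioc u (u + M)).filter (fun t => d ∣ c + t * D)).card : ℝ) - (M : ℝ) / d| ≤ 1 := by
  -- the residue of `t`
  obtain ⟨v, hv⟩ : ∃ v : ℕ, ∀ t : ℕ, d ∣ c + t * D ↔ t ≡ v [MOD d] := by
    rcases Nat.eq_or_lt_of_le (Nat.succ_le_of_lt hd) with h1 | h1
    · have h1' : d = 1 := h1.symm
      subst h1'
      exact ⟨0, fun t => ⟨fun _ => Nat.modEq_one, fun _ => one_dvd _⟩⟩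
    · obtain ⟨w, hw⟩ := Nat.exists_mul_mod_eq_one_of_coprime hD h1
      -- `t ≡ - c w`
      refine ⟨(d - c % d) * w, fun t => ?_⟩
      have hcd : c + (d - c % d) ≡ 0 [MOD d] := by
        have h2 : c % d < d := Nat.mod_lt _ hd
        have h3 : c + (d - c % d) = (c - c % d) + d := by
          have := Nat.mod_le c d
          omega
        rw [h3]
        have h4 : d ∣ c - c % d := Nat.dvd_sub_mod c
        exact (Nat.modEq_zero_iff_dvd).2 (Dvd.dvd.add h4 dvd_rfl)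
      have hDw : D * w ≡ 1 [MOD d] := by
        unfold Nat.ModEq
        rw [hw.2, Nat.mod_eq_of_lt h1]
      constructor
      · intro h
        have h5 : c + t * D ≡ 0 [MOD d] := (Nat.modEq_zero_iff_dvd).2 h
        have h6 : c + t * D ≡ c + (d - c % d) [MOD d] := h5.trans hcd.symm
        have h7 : t * D ≡ d - c % d [MOD d] := Nat.ModEq.add_left_cancel' c h6
        have h8 : t * D * w ≡ (d - c % d) * w [MOD d] := h7.mul_right w
        have h9 : t * D * w ≡ t * 1 [MOD d] := by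
          rw [mul_assoc]
          exact hDw.mul_left t
        rw [mul_one] at h9
        exact h9.symm.trans h8
      · intro h
        have h5 : t * D ≡ (d - c % d) * w * D [MOD d] := h.mul_right D
        have h6 : (d - c % d) * w * D ≡ (d - c % d) * 1 [MOD d] := by
          rw [mul_assoc]
          apply Nat.ModEq.mul_left
          rw [mul_comm]
          exact hDw
        have h7 : c + t * D ≡ c + (d - c % d) [MOD d] := by
          apply Nat.ModEq.add_left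
          have := h5.trans h6
          rwa [mul_one] at this
        exact (Nat.modEq_zero_iff_dvd).1 (h7.trans hcd)
  have h := Pool.Agent.TH423.SH.FLIP.cnt_Ioc u (u + M) d v (Nat.le_add_right _ _) hd
  have e : ((Ioc u (u + M)).filter (fun t => d ∣ c + t * D)) = ((Ioc u (u + M)).filter (fun n => n ≡ v [MOD d])) :=
    Finset.filter_congr fun t _ => hv t
  rw [e]
  have e2 : (((u + M : ℕ) : ℝ) - (u : ℝ)) / d = (M : ℝ) / d := by push_cast; ring
  rw [← e2]
  exact h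

lemma dvd_prod_iff {U : Finset ℕ} (hU : ∀ p ∈ U, p.Prime) (n : ℕ) :
    (∀ p ∈ U, p ∣ n) ↔ (∏ p ∈ U, p) ∣ n := by
  constructor
  · intro h
    exact Finset.prod_primes_dvd n (fun p hp => (hU p hp).prime) h
  · intro h p hp
    exact (Finset.dvd_prod_of_mem _ hp).trans h

/-- the fundamental lemma in progressions -/
theorem fl_prog (ε : ℝ) (hε : 0 < ε) : ∃ B : ℕ, 1 ≤ B ∧ ∀ z : ℕ, 2 ≤ z → ∀ P : Finset ℕ,
    (∀ p ∈ P, p.Prime ∧ p ≤ z) → ∀ D c u M : ℕ, (∀ p ∈ P, ¬ p ∣ D) →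
    |(((Ioc u (u + M)).filter (fun t => ∀ p ∈ P, ¬ p ∣ c + t * D)).card : ℝ) - M * VV P| ≤
      ε * (M * VV P) + (z : ℝ) ^ B := by
  classical
  obtain ⟨B, hB, h⟩ := Pool.Agent.Y855.FL ε hε
  refine ⟨B + 2, by omega, ?_⟩
  intro z hz P hP D c u M hD
  have hzr : (2 : ℝ) ≤ z := by exact_mod_cast hz
  have h1 := h z hz P hP (fun p => 1 / (p : ℝ)) (by
    intro p hp
    have hp2 : (2 : ℝ) ≤ p := by exact_mod_cast (hP p hp).1.two_le
    refine ⟨by positivity, ?_, ?_⟩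
    · exact one_div_le_one_div_of_le (by norm_num) hp2
    · exact div_le_div_of_nonneg_right (by norm_num) (by linarith)) (Ioc u (u + M)) (fun t => c + t * D) M
    (Nat.cast_nonneg _)
  refine h1.trans (add_le_add le_rfl ?_)
  have h2 : ∑ U ∈ P.powerset.filter (fun U => ∏ p ∈ U, p ≤ z ^ B),
      |(((Ioc u (u + M)).filter (fun t => ∀ p ∈ U, p ∣ c + t * D)).card : ℝ) - (M : ℝ) * ∏ p ∈ U, 1 / (p : ℝ)| ≤
      (z : ℝ) ^ B := by
    have h3 : ∀ U ∈ P.powerset.filter (fun U => ∏ p ∈ U, p ≤ z ^ B),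
        |(((Ioc u (u + M)).filter (fun t => ∀ p ∈ U, p ∣ c + t * D)).card : ℝ) - (M : ℝ) * ∏ p ∈ U, 1 / (p : ℝ)| ≤ 1 := by
      intro U hU
      rw [mem_filter, mem_powerset] at hU
      have hUp : ∀ p ∈ U, p.Prime := fun p hp => (hP p (hU.1 hp)).1
      have h4 := cnt_prog D c u M (∏ p ∈ U, p) (prod_pos fun p hp => (hUp p hp).pos) (by
        apply Nat.Coprime.prod_right
        intro p hp
        rw [Nat.coprime_comm]
        exact ((hUp p hp).coprime_iff_not_dvd).2 (hD p (hU.1 hp)))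
      have e1 : (Ioc u (u + M)).filter (fun t => ∀ p ∈ U, p ∣ c + t * D) =
          (Ioc u (u + M)).filter (fun t => (∏ p ∈ U, p) ∣ c + t * D) :=
        Finset.filter_congr fun t _ => dvd_prod_iff hUp _
      have e2 : (M : ℝ) * ∏ p ∈ U, 1 / (p : ℝ) = (M : ℝ) / ((∏ p ∈ U, p : ℕ) : ℝ) := by
        push_cast
        rw [div_eq_mul_inv, ← prod_inv_distrib]
        simp only [one_div]
      rw [e1, e2]
      exact h4
    calc _ ≤ ∑ U ∈ P.powerset.filter (fun U => ∏ p ∈ U, p ≤ z ^ B), (1 : ℝ) := sum_le_sum h3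
      _ = ((P.powerset.filter (fun U => ∏ p ∈ U, p ≤ z ^ B)).card : ℝ) := by
          rw [sum_const, nsmul_eq_mul, mul_one]
      _ ≤ ((z ^ B : ℕ) : ℝ) := by
          exact_mod_cast Pool.Agent.TH882.FL.card_le P (fun p hp => (hP p hp).1) (z ^ B)
      _ = _ := by push_cast; rfl
  have h3 : ((Nat.log 2 z : ℝ) + 2) ≤ (z : ℝ) ^ 2 := by
    have h4 : Nat.log 2 z ≤ z := Nat.log_le_self _ _
    have h5 : (Nat.log 2 z : ℝ) ≤ z := by exact_mod_cast h4
    nlinarith
  calc ((Nat.log 2 z : ℝ) + 2) * _ ≤ (z : ℝ) ^ 2 * (z : ℝ) ^ B := by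
        apply mul_le_mul h3 h2 (sum_nonneg fun _ _ => abs_nonneg _) (by positivity)
    _ = (z : ℝ) ^ (B + 2) := by ring

/-- lower bound in windows: all primes up to `t`, `t ^ s ≤ y` -/
theorem fl_low (ε : ℝ) (hε : 0 < ε) : ∃ s : ℕ, 1 ≤ s ∧ ∀ t y a : ℕ, t ^ s ≤ y →
    (1 - ε) * (y * VV (Pr t)) ≤ (((Ioc a (a + y)).filter (fun n => ∀ p ∈ Pr t, ¬ p ∣ n)).card : ℝ) := by
  obtain ⟨B, hB, h⟩ := fl_prog (ε / 2) (by linarith)
  obtain ⟨K, hK⟩ := pow_unbounded_of_one_lt (2 / ε) (show (1 : ℝ) < 2 by norm_num)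
  refine ⟨B + 1 + K, by omega, ?_⟩
  intro t y a hty
  rcases lt_or_ge t 2 with ht | ht
  · have hP : Pr t = ∅ := by
      rw [Finset.eq_empty_iff_forall_notMem]
      intro p hp
      rw [mem_Pr] at hp
      have := hp.1.two_le
      omega
    rw [hP]
    simp only [VV, prod_empty, mul_one, notMem_empty, false_imp_iff, imp_true_iff, filter_true, Nat.card_Ioc,
      Nat.add_sub_cancel_left]
    have : (0 : ℝ) ≤ y := Nat.cast_nonneg _
    nlinarith
  · have h1 := (abs_le.1 (h t ht (Pr t) (fun p hp => mem_Pr.1 hp) 1 0 a y (fun p hp hd => by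
      have := (mem_Pr.1 hp).1
      exact this.one_lt.ne' (Nat.dvd_one.1 hd)))).1
    simp only [zero_add, mul_one] at h1
    have htr : (2 : ℝ) ≤ t := by exact_mod_cast ht
    have hV := VV_crude t (by omega) (P := Pr t) (fun p hp => mem_Pr.1 hp)
    have hy : (t : ℝ) ^ (B + 1 + K) ≤ y := by exact_mod_cast hty
    have h2 : (t : ℝ) ^ B ≤ ε / 2 * (y * VV (Pr t)) := by
      have h3 : (2 / ε) * (t : ℝ) ^ (B + 1) ≤ y := by
        refine le_trans ?_ hy
        rw [pow_add (t : ℝ) (B + 1) K, mul_comm]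
        apply mul_le_mul_of_nonneg_left _ (by positivity)
        refine hK.le.trans (pow_le_pow_left₀ (by norm_num) htr K)
      have h4 : (2 / ε) * (t : ℝ) ^ B ≤ y * VV (Pr t) := by
        calc (2 / ε) * (t : ℝ) ^ B = (2 / ε) * (t : ℝ) ^ (B + 1) * (1 / t) := by
              field_simp
              ring
          _ ≤ y * VV (Pr t) := by
              apply mul_le_mul h3 hV (by positivity) (Nat.cast_nonneg _)
      calc (t : ℝ) ^ B = ε / 2 * ((2 / ε) * (t : ℝ) ^ B) := by field_simp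
        _ ≤ _ := by gcongr
    linarith

end Pool.Agent.K4H19.GM
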