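import Pool.Agent.K4H19.GM.Asm

/-! The first occurrence of gaps in the random model: final statements. -/

set_option autoImplicit false

open MeasureTheory ProbabilityTheory Finset Filter
open scoped Topology

namespace Pool.Agent.K4H19.GM

open Pool.Agent.K4H77.Noise (emp rset mem_emp_iff firstAfter firstAfter_le firstAfter_spec first_upper first_lower
  nth_gap ev_gap freq_gap ngap supGap rset_infinite le_limsup_seq limsup_seq_le)

section

variable {T : ℕ → ℕ} (hT : Sub T) {Ω : Type} [MeasurableSpace Ω] (P : Measure Ω) [IsProbabilityMeasure P]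
  {A : ℕ → Set Ω} (hA : Granville T P A)

include hT hA

/-- the random set is infinite and meets `(x, 2x]` -/
lemma ae_basic : ∀ᵐ ω ∂P, (rset A ω).Infinite ∧
    ∀ᶠ x : ℕ in atTop, ∃ m : ℕ, x < m ∧ m ≤ 2 * x ∧ m ∈ rset A ω := by
  filter_upwards [ae_dyadic hT P hA] with ω hω
  refine ⟨rset_infinite ?_, hω⟩
  rw [Filter.frequently_atTop]
  intro N
  obtain ⟨x, hx, m, h1, h2, h3⟩ := ((eventually_ge_atTop N).and hω).exists
  exact ⟨m, by omega, h3⟩

/-- windows in all blocks of `J` -/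
lemma ae_windows {θ : ℝ} (hθ : 0 < θ) (J : ℕ → Prop)
    (hpack : ∀ η c : ℝ, 0 < η → 0 < c → ∀ᶠ j : ℕ in atTop, J j →
      Pack (T j) (yy c j) (2 ^ j) θ ((2 : ℝ) ^ ((1 - η) * j))) {c : ℝ} (hc : 0 < c) (hθc : θ * c < 1) :
    ∀ᵐ ω ∂P, ∀ᶠ j : ℕ in atTop, J j → ∃ n : ℕ, 2 ^ j ≤ n ∧ n + yy c j < 2 * 2 ^ j ∧
      ∀ i ∈ Icc 1 (yy c j), n + i ∉ rset A ω := by
  filter_upwards [ae_gap hT hθ hc hθc J (fun η hη => hpack η c hη hc) P hA] with ω hω
  filter_upwards [hω] with j hj hJ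
  obtain ⟨n, h1, h2, h3⟩ := hj hJ
  exact ⟨n, h1, h2, (mem_emp_iff A ω n _).1 h3⟩

/-- all blocks -/
theorem ae_first_all {θ : ℝ} (hθ : 0 < θ)
    (hpack : ∀ η c : ℝ, 0 < η → 0 < c → ∀ᶠ j : ℕ in atTop,
      Pack (T j) (yy c j) (2 ^ j) θ ((2 : ℝ) ^ ((1 - η) * j))) {D : ℝ} (hD : θ < D) :
    ∀ᵐ ω ∂P, ∀ᶠ g : ℕ in atTop, (∃ k : ℕ, Nat.nth (· ∈ rset A ω) k + g < Nat.nth (· ∈ rset A ω) (k + 1)) ∧
      (Real.log (firstAfter (rset A ω) g)) ^ 2 / g ≤ D := by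
  have hD0 : 0 < D := hθ.trans hD
  -- `θ < D₁ < D₂ < D`
  set D1 : ℝ := θ + (D - θ) / 3 with hD1
  set D2 : ℝ := θ + 2 * (D - θ) / 3 with hD2
  have h1 : θ < D1 := by rw [hD1]; linarith
  have h2 : D1 < D2 := by rw [hD1, hD2]; linarith
  have h3 : D2 < D := by rw [hD2]; linarith
  have hD10 : 0 < D1 := hθ.trans h1
  have hD20 : 0 < D2 := hD10.trans h2
  filter_upwards [ae_basic hT P hA, ae_windows hT P hA hθ (fun _ => True)
    (fun η c hη hc => (hpack η c hη hc).mono fun j hj _ => hj) (c := 1 / D1) (by positivity)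
    (by rw [mul_one_div, div_lt_one hD10]; exact h1)] with ω hb hw
  have hw' := win_of_block (S := rset A ω) (c := 1 / D2) (c' := 1 / D1) (by positivity)
    (one_div_lt_one_div_of_lt hD10 h2) (hw.mono fun j hj => hj trivial)
  have h4 := first_upper hb.1 (c := 1 / D2) (ε := D - D2) (by positivity) (by linarith) hw' hb.2
  filter_upwards [h4] with g hg
  refine ⟨hg.1, hg.2.trans (le_of_eq ?_)⟩
  rw [one_div_one_div]
  ring

/-- infinitely many blocks -/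
theorem ae_first_freq {θ : ℝ} (hθ : 0 < θ) (J : ℕ → Prop) (hJ : ∃ᶠ j in atTop, J j)
    (hpack : ∀ η c : ℝ, 0 < η → 0 < c → ∀ᶠ j : ℕ in atTop, J j →
      Pack (T j) (yy c j) (2 ^ j) θ ((2 : ℝ) ^ ((1 - η) * j))) {D : ℝ} (hD : θ < D) :
    ∀ᵐ ω ∂P, ∃ᶠ g : ℕ in atTop, (∃ k : ℕ, Nat.nth (· ∈ rset A ω) k + g < Nat.nth (· ∈ rset A ω) (k + 1)) ∧
      (Real.log (firstAfter (rset A ω) g)) ^ 2 / g ≤ D := by
  have hD0 : 0 < D := hθ.trans hD
  set D1 : ℝ := θ + (D - θ) / 2 with hD1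
  have h1 : θ < D1 := by rw [hD1]; linarith
  have h2 : D1 < D := by rw [hD1]; linarith
  have hD10 : 0 < D1 := hθ.trans h1
  filter_upwards [ae_basic hT P hA, ae_windows hT P hA hθ J hpack (c := 1 / D1) (by positivity)
    (by rw [mul_one_div, div_lt_one hD10]; exact h1)] with ω hb hw
  have h4 := freq_first hb.1 (c := 1 / D) (c' := 1 / D1) (by positivity)
    (one_div_lt_one_div_of_lt hD10 h2) ((hJ.and_eventually hw).mono fun j hj => hj.2 hj.1) hb.2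
  refine h4.mono fun g hg => ⟨hg.1, hg.2.trans (le_of_eq (one_div_one_div D))⟩

/-- infinitely many blocks: long gaps -/
theorem ae_gap_freq {θ : ℝ} (hθ : 0 < θ) (J : ℕ → Prop) (hJ : ∃ᶠ j in atTop, J j)
    (hpack : ∀ η c : ℝ, 0 < η → 0 < c → ∀ᶠ j : ℕ in atTop, J j →
      Pack (T j) (yy c j) (2 ^ j) θ ((2 : ℝ) ^ ((1 - η) * j))) {c : ℝ} (hc : 0 < c) (hθc : θ * c < 1) :
    ∀ᵐ ω ∂P, ∃ᶠ k in atTop, c ≤ ngap (rset A ω) k := by
  obtain ⟨c', hc1, hc2⟩ : ∃ c' : ℝ, c < c' ∧ θ * c' < 1 := by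
    refine ⟨(c + 1 / θ) / 2, ?_, ?_⟩
    · have : c < 1 / θ := by rw [lt_div_iff₀ hθ]; linarith
      linarith
    · have : θ * ((c + 1 / θ) / 2) = (θ * c + 1) / 2 := by field_simp
      rw [this]
      linarith
  filter_upwards [ae_basic hT P hA, ae_windows hT P hA hθ J hpack (c := c') (hc.trans hc1) hc2] with ω hb hw
  apply freq_gap hb.1 hc.le
  have h1 := ((hJ.and_eventually (hw.and ((len_cmp hc hc1).and (eventually_ge_atTop 1)))))
  rw [Filter.frequently_atTop] at h1 ⊢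
  intro N
  obtain ⟨j, hj, hJj, hwj, hlen, hj1⟩ := h1 N
  obtain ⟨n, h2, h3, h4⟩ := hwj hJj
  refine ⟨n, ?_, ?_⟩
  · have : j < 2 ^ j := Nat.lt_two_pow_self
    omega
  · intro i hi
    apply h4
    rw [mem_Icc] at hi ⊢
    refine ⟨hi.1, hi.2.trans ?_⟩
    have h5 : ((⌊c * (Real.log n) ^ 2⌋₊ : ℕ) : ℝ) ≤ yy c' j := by
      refine (Nat.floor_le (by positivity)).trans ?_
      refine le_trans ?_ ((le_add_of_nonneg_right zero_le_one).trans hlen)
      have hn0 : 0 < n := lt_of_lt_of_le (by positivity) h2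
      have h6 : Real.log n ≤ ((j : ℝ) + 3) * Real.log 2 := by
        have h7 : Real.log n ≤ ((j + 1 : ℕ) : ℝ) * Real.log 2 := by
          rw [← Real.log_pow]
          apply Real.log_le_log (by exact_mod_cast hn0)
          have : n ≤ 2 ^ (j + 1) := by rw [pow_succ]; omega
          exact_mod_cast this
        push_cast at h7
        have := log2_pos
        nlinarith
      have h7 : 0 ≤ Real.log n := Real.log_natCast_nonneg n
      gcongr
    exact_mod_cast h5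

end

/-- no long gaps for small levels -/
theorem ae_gap_le {C : ℝ} (hC : 1 < C) : ∃ κ : ℝ, 0 < κ ∧ ∀ T : ℕ → ℕ, Sub T → (∀ᶠ j : ℕ in atTop, (T j : ℝ) ≤ (j : ℝ) ^ κ) →
    ∀ (Ω : Type) (_ : MeasurableSpace Ω) (P : Measure Ω) (_ : IsProbabilityMeasure P) (A : ℕ → Set Ω),
    Granville T P A → ∀ᵐ ω ∂P, ∀ᶠ k in atTop, ngap (rset A ω) k ≤ C := by
  obtain ⟨κ, hκ, h⟩ := ae_upper hC
  refine ⟨κ, hκ, ?_⟩
  intro T hT hTκ Ω _ P _ A hA
  filter_upwards [ae_basic hT P hA, h T hT hTκ Ω _ P inferInstance A hA] with ω hb hω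
  apply ev_gap hb.1 (by linarith)
  filter_upwards [hω] with n hn hcon
  exact hn ((mem_emp_iff A ω n _).2 hcon)

/-- first occurrences are late for small levels -/
theorem ae_first_ge {D : ℝ} (hD : D < 1) : ∃ κ : ℝ, 0 < κ ∧ ∀ T : ℕ → ℕ, Sub T → (∀ᶠ j : ℕ in atTop, (T j : ℝ) ≤ (j : ℝ) ^ κ) →
    ∀ (Ω : Type) (_ : MeasurableSpace Ω) (P : Measure Ω) (_ : IsProbabilityMeasure P) (A : ℕ → Set Ω),
    Granville T P A → ∀ᵐ ω ∂P, ∀ᶠ g : ℕ in atTop, D ≤ (Real.log (firstAfter (rset A ω) g)) ^ 2 / g := by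
  set D' : ℝ := max D (1 / 2) with hD'
  have h1 : D' < 1 := max_lt hD (by norm_num)
  have h0 : 0 < D' := lt_of_lt_of_le (by norm_num) (le_max_right _ _)
  have hC : 1 < 1 / D' := by rw [lt_div_iff₀ h0]; linarith
  obtain ⟨κ, hκ, h⟩ := ae_gap_le hC
  refine ⟨κ, hκ, ?_⟩
  intro T hT hTκ Ω _ P _ A hA
  filter_upwards [ae_basic hT P hA, h T hT hTκ Ω _ P inferInstance A hA,
    ae_first_all hT P hA (θ := 2) (by norm_num)
      (fun η c hη hc => (pack_avg hT (show (0 : ℝ) < 1 by norm_num) hη hc).mono fun j hj => hj.mono (by norm_num) le_rfl)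
      (show (2 : ℝ) < 3 by norm_num)] with ω hb h2 h3
  have h4 := first_lower hb.1 (C := 1 / D') (by positivity) h2 (h3.mono fun g hg => hg.1)
  filter_upwards [h4] with g hg
  rw [one_div_one_div] at hg
  exact (le_max_left _ _).trans hg

end Pool.Agent.K4H19.GM
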