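import Pool.Agent.Y855.A2
import Pool.Agent.TH882.FL
import Pool.Agent.TH423.SH.FLIP
import Pool.Agent.K4H77.NE
import Pool.Agent.K4H77.SA
import Pool.Agent.H305R2.MertensM
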