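import Pool.Agent.K4H19.GM.Def2

/-! Many disjoint windows with few integers free of small primes. -/

set_option autoImplicit false

open Finset Filter
open scoped Topology

namespace Pool.Agent.K4H19.GM

/-- the number of survivors of the sieve by the primes up to `T` in `(n, n + y]` -/
noncomputable def E (T n y : ℕ) : ℝ := (((Ioc n (n + y)).filter (fun m => ∀ p ∈ Pr T, ¬ p ∣ m)).card : ℝ)

lemma E_shift (T a y s : ℕ) :
    E T (a + s) y = (((Ioc a (a + y)).filter (fun m => ∀ p ∈ Pr T, ¬ p ∣ m + s)).card : ℝ) := by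
  unfold E
  congr 1
  symm
  apply card_bij (fun m _ => m + s)
  · intro m hm
    rw [mem_filter, mem_Ioc] at hm ⊢
    exact ⟨⟨by omega, by omega⟩, hm.2⟩
  · intro m _ m' _ h
    exact Nat.add_right_cancel h
  · intro m hm
    rw [mem_filter, mem_Ioc] at hm
    refine ⟨m - s, ?_, by omega⟩
    rw [mem_filter, mem_Ioc]
    refine ⟨⟨by omega, by omega⟩, ?_⟩
    rw [Nat.sub_add_cancel (by omega)]
    exact hm.2

lemma avg_windows (ε : ℝ) (hε : 0 < ε) : ∃ B : ℕ, 1 ≤ B ∧ ∀ (T z : ℕ) (P : Finset ℕ) (a y u M : ℕ),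
    2 ≤ z → T ≤ z → P ⊆ Pr T →
    ∑ t ∈ Ioc u (u + M), E T (a + t * ∏ p ∈ P, p) y ≤
      (((Ioc a (a + y)).filter (fun m => ∀ p ∈ P, ¬ p ∣ m)).card : ℝ) *
        ((1 + ε) * (M * VV (Pr T \ P)) + (z : ℝ) ^ B) := by
  classical
  obtain ⟨B, hB, h⟩ := fl_prog ε hε
  refine ⟨B, hB, ?_⟩
  intro T z P a y u M hz hTz hP
  set D := ∏ p ∈ P, p with hD
  have hpp : ∀ p ∈ P, p.Prime := fun p hp => (mem_Pr.1 (hP hp)).1
  have h1 : ∀ t ∈ Ioc u (u + M), E T (a + t * D) y ≤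
      ∑ m ∈ (Ioc a (a + y)).filter (fun m => ∀ p ∈ P, ¬ p ∣ m),
        (if ∀ p ∈ Pr T \ P, ¬ p ∣ m + t * D then (1 : ℝ) else 0) := by
    intro t _
    rw [E_shift, ← sum_filter, sum_const, nsmul_eq_mul, mul_one]
    apply Nat.cast_le.2
    apply card_le_card
    intro m hm
    rw [mem_filter] at hm
    rw [mem_filter, mem_filter]
    refine ⟨⟨hm.1, fun p hp hd => ?_⟩, fun p hp => hm.2 p (mem_sdiff.1 hp).1⟩
    apply hm.2 p (hP hp)
    exact Dvd.dvd.add hd (Dvd.dvd.mul_left (dvd_prod_of_mem _ hp) t)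
  refine (sum_le_sum h1).trans ?_
  rw [sum_comm]
  have h2 : ∀ m ∈ (Ioc a (a + y)).filter (fun m => ∀ p ∈ P, ¬ p ∣ m),
      ∑ t ∈ Ioc u (u + M), (if ∀ p ∈ Pr T \ P, ¬ p ∣ m + t * D then (1 : ℝ) else 0) ≤
        (1 + ε) * (M * VV (Pr T \ P)) + (z : ℝ) ^ B := by
    intro m _
    rw [← sum_filter, sum_const, nsmul_eq_mul, mul_one]
    have h3 := (abs_le.1 (h z hz (Pr T \ P) (fun p hp => by
      have := mem_Pr.1 (mem_sdiff.1 hp).1
      exact ⟨this.1, this.2.trans hTz⟩) D m u M (fun p hp hd => by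
        have hpr := (mem_Pr.1 (mem_sdiff.1 hp).1).1
        rw [hD, hpr.prime.dvd_finsetProd_iff] at hd
        obtain ⟨q, hq, hpq⟩ := hd
        have := (Nat.prime_dvd_prime_iff_eq hpr (hpp q hq)).1 hpq
        rw [this] at hp
        exact (mem_sdiff.1 hp).2 hq))).2
    linarith
  refine (sum_le_sum h2).trans (le_of_eq ?_)
  rw [sum_const, nsmul_eq_mul]

lemma markov {ι : Type*} [DecidableEq ι] (S : Finset ι) (f : ι → ℝ) (A ε : ℝ) (hε : 0 < ε) (hA : 0 < A)
    (hf : ∀ t ∈ S, 0 ≤ f t) (h : ∑ t ∈ S, f t ≤ A * S.card) :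
    ε / (1 + ε) * S.card ≤ ((S.filter (fun t => f t ≤ (1 + ε) * A)).card : ℝ) := by
  classical
  have h1 : (S.filter (fun t => f t ≤ (1 + ε) * A)).card + (S.filter (fun t => ¬ f t ≤ (1 + ε) * A)).card = S.card :=
    card_filter_add_card_filter_not _
  have h2 : (((S.filter (fun t => ¬ f t ≤ (1 + ε) * A)).card : ℝ)) * ((1 + ε) * A) ≤ A * S.card := by
    calc _ = ∑ t ∈ S.filter (fun t => ¬ f t ≤ (1 + ε) * A), (1 + ε) * A := by
          rw [sum_const, nsmul_eq_mul]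
      _ ≤ ∑ t ∈ S.filter (fun t => ¬ f t ≤ (1 + ε) * A), f t :=
          sum_le_sum fun t ht => (not_le.1 (mem_filter.1 ht).2).le
      _ ≤ ∑ t ∈ S, f t := sum_le_sum_of_subset_of_nonneg (filter_subset _ _) fun t ht _ => hf t ht
      _ ≤ _ := h
  have h3 : (((S.filter (fun t => ¬ f t ≤ (1 + ε) * A)).card : ℝ)) * (1 + ε) ≤ S.card := by
    have h4 : (((S.filter (fun t => ¬ f t ≤ (1 + ε) * A)).card : ℝ)) * (1 + ε) * A ≤ S.card * A := by nlinarith
    exact le_of_mul_le_mul_right h4 hA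
  have h4 : ((S.filter (fun t => f t ≤ (1 + ε) * A)).card : ℝ) + ((S.filter (fun t => ¬ f t ≤ (1 + ε) * A)).card : ℝ) =
      S.card := by exact_mod_cast h1
  have h5 : ε / (1 + ε) * S.card = S.card - S.card / (1 + ε) := by field_simp; ring
  rw [h5]
  have h6 : ((S.filter (fun t => ¬ f t ≤ (1 + ε) * A)).card : ℝ) ≤ S.card / (1 + ε) := by
    rw [le_div_iff₀ (by linarith)]
    exact h3
  linarith

/-- `N` disjoint windows of length `y` in `[X, 2 X)` with at most `θ y V(T)` survivors -/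
def Pack (T y X : ℕ) (θ N : ℝ) : Prop := ∃ F : Finset ℕ, (∀ n ∈ F, X ≤ n ∧ n + y < 2 * X) ∧
  (∀ n ∈ F, ∀ m ∈ F, n < m → n + y < m) ∧ N ≤ F.card ∧ ∀ n ∈ F, E T n y ≤ θ * (y * VV (Pr T))

lemma pack_core (ε : ℝ) (hε : 0 < ε) (hε1 : ε ≤ 1) : ∃ B : ℕ, 1 ≤ B ∧ ∀ (T z : ℕ) (P : Finset ℕ) (a y x X : ℕ) (θ : ℝ),
    2 ≤ z → T ≤ z → P ⊆ Pr T → a + y ≤ x → 1 ≤ y → 0 < θ →
    (((Ioc a (a + y)).filter (fun m => ∀ p ∈ P, ¬ p ∣ m)).card : ℝ) ≤ θ * (y * VV P) →
    4 * ((∏ p ∈ P, p) + x) ≤ X → (z : ℝ) ^ (B + 1) * (4 * (∏ p ∈ P, p : ℕ)) ≤ ε * X →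
    Pack T y X (θ * ((1 + 2 * ε) * (1 + ε))) (ε / 8 * (X / ((∏ p ∈ P, p : ℕ) * (y + 1)))) := by
  classical
  obtain ⟨B, hB, h⟩ := avg_windows ε hε
  refine ⟨B, hB, ?_⟩
  intro T z P a y x X θ hz hTz hP hax hy hθ hO hX hzB
  set D := ∏ p ∈ P, p with hD
  have hpp : ∀ p ∈ P, p.Prime := fun p hp => (mem_Pr.1 (hP hp)).1
  have hD1 : 1 ≤ D := Nat.one_le_iff_ne_zero.2 (prod_ne_zero_iff.2 fun p hp => (hpp p hp).ne_zero)
  have hDr : (1 : ℝ) ≤ D := by exact_mod_cast hD1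
  have hyr : (1 : ℝ) ≤ y := by exact_mod_cast hy
  have hXr : (0 : ℝ) < X := by
    have : 0 < X := by omega
    exact_mod_cast this
  set M := X / (2 * D) with hM
  set u := X / D with hu
  have hMD : M * (2 * D) ≤ X := Nat.div_mul_le_self _ _
  have hM2 : X < (M + 1) * (2 * D) := by
    have := Nat.lt_div_mul_add (a := X) (b := 2 * D) (by omega)
    rw [hM]
    linarith
  have huD : u * D ≤ X := Nat.div_mul_le_self _ _
  have hu2 : X < (u + 1) * D := by
    have := Nat.lt_div_mul_add (a := X) (b := D) (by omega)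
    rw [hu]
    linarith
  have hMlow : (X : ℝ) / (4 * D) ≤ M := by
    have h1 : 4 * D ≤ X := by omega
    have h2 : (X : ℝ) < (M + 1) * (2 * D) := by exact_mod_cast hM2
    have h3 : (4 : ℝ) * D ≤ X := by exact_mod_cast h1
    rw [div_le_iff₀ (by positivity)]
    nlinarith
  have hM0 : (0 : ℝ) < M := lt_of_lt_of_le (by positivity) hMlow
  have hprT : ∀ p ∈ Pr T, p.Prime := fun p hp => (mem_Pr.1 hp).1
  have hV' : 1 / (z : ℝ) ≤ VV (Pr T \ P) := VV_crude z (by omega) fun p hp => by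
    have := mem_Pr.1 (mem_sdiff.1 hp).1
    exact ⟨this.1, this.2.trans hTz⟩
  have hVP := VV_pos hpp
  have hVT := VV_pos hprT
  have hVmul : VV (Pr T) = VV P * VV (Pr T \ P) := by
    unfold VV
    rw [mul_comm, prod_sdiff hP]
  have hV'0 : 0 < VV (Pr T \ P) := VV_pos fun p hp => hprT p (mem_sdiff.1 hp).1
  have hzr : (2 : ℝ) ≤ z := by exact_mod_cast hz
  have hzB' : (z : ℝ) ^ B ≤ ε * (M * VV (Pr T \ P)) := by
    have h1 : (z : ℝ) ^ B ≤ ε * (X / (4 * D)) * (1 / z) := by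
      rw [mul_one_div, le_div_iff₀ (by linarith), ← pow_succ, mul_div_assoc', le_div_iff₀ (by positivity)]
      exact hzB
    refine h1.trans ?_
    calc ε * (X / (4 * D)) * (1 / z) ≤ ε * M * VV (Pr T \ P) := by gcongr
      _ = _ := by ring
  have hav := h T z P a y u M hz hTz hP
  set A : ℝ := θ * (1 + 2 * ε) * (y * VV (Pr T)) with hA
  have hA0 : 0 < A := by positivity
  have hav2 : ∑ t ∈ Ioc u (u + M), E T (a + t * D) y ≤ A * (Ioc u (u + M)).card := by
    rw [Nat.card_Ioc, Nat.add_sub_cancel_left]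
    refine hav.trans ?_
    calc _ ≤ (θ * (y * VV P)) * ((1 + ε) * (M * VV (Pr T \ P)) + ε * (M * VV (Pr T \ P))) := by
          apply mul_le_mul hO _ (by positivity) (by positivity)
          linarith
      _ = A * M := by
          rw [hA, hVmul]
          ring
  have hmk := markov (Ioc u (u + M)) (fun t => E T (a + t * D) y) A ε hε hA0
    (fun t _ => Nat.cast_nonneg _) hav2
  rw [Nat.card_Ioc, Nat.add_sub_cancel_left] at hmk
  set G := (Ioc u (u + M)).filter (fun t => E T (a + t * D) y ≤ (1 + ε) * A) with hG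
  -- the positions
  set F0 := G.image (fun t => a + t * D) with hF0
  have hcard : F0.card = G.card := by
    apply card_image_of_injective
    intro t t' htt
    have h2 : t * D = t' * D := by
      simp only at htt
      omega
    exact Nat.eq_of_mul_eq_mul_right (by omega) h2
  obtain ⟨r, hr, hres⟩ := Pool.Agent.K4H77.Noise.exists_residue F0 (y + 1) (by omega)
  set F := F0.filter (fun n => n % (y + 1) = r) with hF
  refine ⟨F, ?_, ?_, ?_, ?_⟩
  · intro n hn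
    rw [hF, mem_filter, hF0, mem_image] at hn
    obtain ⟨⟨t, ht, rfl⟩, _⟩ := hn
    rw [hG, mem_filter, mem_Ioc] at ht
    have h1 : (u + 1) * D ≤ t * D := Nat.mul_le_mul_right _ (by omega)
    have h2 : t * D ≤ (u + M) * D := Nat.mul_le_mul_right _ ht.1.2
    have h3 : (u + M) * D = u * D + M * D := by ring
    have h4 : M * (2 * D) = 2 * (M * D) := by ring
    constructor
    · omega
    · omega
  · intro n hn m hm hnm
    rw [hF, mem_filter] at hn hm
    have h1 : (m - n) % (y + 1) = 0 := by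
      have : n ≡ m [MOD (y + 1)] := hn.2.trans hm.2.symm
      exact Nat.sub_mod_eq_zero_of_mod_eq (hm.2.trans hn.2.symm)
    have h2 : y + 1 ≤ m - n := Nat.le_of_dvd (by omega) (Nat.dvd_of_mod_eq_zero h1)
    omega
  · have h1 : (F0.card : ℝ) ≤ (y + 1) * F.card := by exact_mod_cast hres
    have h2 : ε / 2 ≤ ε / (1 + ε) := by
      apply div_le_div_of_nonneg_left hε.le (by linarith) (by linarith)
    have h3 : ε / 2 * (X / (4 * D)) ≤ F0.card := by
      rw [hcard]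
      refine le_trans ?_ hmk
      gcongr
    have h4 : ε / 8 * (X / (D * (y + 1))) = ε / 2 * (X / (4 * D)) / (y + 1) := by
      field_simp
      ring
    rw [h4, div_le_iff₀ (by linarith)]
    linarith
  · intro n hn
    rw [hF, mem_filter, hF0, mem_image] at hn
    obtain ⟨⟨t, ht, rfl⟩, _⟩ := hn
    rw [hG, mem_filter] at ht
    refine ht.2.trans (le_of_eq ?_)
    rw [hA]
    ring

end Pool.Agent.K4H19.GM
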