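import Pool.Agent.K4H19.GM.Pack2
import Pool.Agent.K4H19.RO.Cnt

/-! The random model with a sieve of varying level: probabilities of empty windows. -/

set_option autoImplicit false

open MeasureTheory ProbabilityTheory Finset Filter
open scoped Topology

namespace Pool.Agent.K4H19.GM

open Pool.Agent.K4H77.Noise (sg sg_self sg_le none_blocks prod_blocks emp emp_meas exp_le_one_sub)

/-- the probability that `n` is selected -/
noncomputable def prb (T : ℕ → ℕ) (n : ℕ) : ℝ :=
  if ∀ p ∈ Pr (T (Nat.log 2 n)), ¬ p ∣ n then min 1 (1 / (VV (Pr (T (Nat.log 2 n))) * Real.log n)) else 0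

/-- the random model: the events `A n` (`n` is selected) are independent and have the probabilities
`prb T n` -/
structure Granville (T : ℕ → ℕ) {Ω : Type*} [MeasurableSpace Ω] (P : Measure Ω) (A : ℕ → Set Ω) : Prop where
  meas : ∀ n, MeasurableSet (A n)
  indep : iIndepSet A P
  prob : ∀ n, P (A n) = ENNReal.ofReal (prb T n)

lemma VPr_pos (t : ℕ) : 0 < VV (Pr t) := VV_pos fun p hp => (mem_Pr.1 hp).1

lemma prb_nonneg (T : ℕ → ℕ) (n : ℕ) : 0 ≤ prb T n := by
  unfold prb
  split_ifs
  · apply le_min zero_le_one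
    apply div_nonneg zero_le_one
    exact mul_nonneg (VPr_pos _).le (Real.log_natCast_nonneg n)
  · exact le_rfl

lemma prb_le_one (T : ℕ → ℕ) (n : ℕ) : prb T n ≤ 1 := by
  unfold prb
  split_ifs
  · exact min_le_left _ _
  · exact zero_le_one

variable {Ω : Type*} [MeasurableSpace Ω]

lemma compl_prob {T : ℕ → ℕ} {P : Measure Ω} [IsProbabilityMeasure P] {A : ℕ → Set Ω} (hA : Granville T P A) (n : ℕ) :
    P ((A n)ᶜ) = ENNReal.ofReal (1 - prb T n) := by
  rw [prob_compl_eq_one_sub (hA.meas n), hA.prob n, ENNReal.ofReal_sub, ENNReal.ofReal_one]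
  exact prb_nonneg T n

lemma emp_prob {T : ℕ → ℕ} {P : Measure Ω} [IsProbabilityMeasure P] {A : ℕ → Set Ω} (hA : Granville T P A) (n H : ℕ) :
    P (emp A n H) = ENNReal.ofReal (∏ h ∈ Icc 1 H, (1 - prb T (n + h))) := by
  unfold emp
  rw [prod_blocks P hA.meas hA.indep (fun h => {n + h}) (fun h => (A (n + h))ᶜ) (Icc 1 H)
    (fun h _ => (sg_self A (Set.mem_singleton _)).compl)]
  · rw [ENNReal.ofReal_prod_of_nonneg]
    · exact Finset.prod_congr rfl fun h _ => compl_prob hA _
    · intro h _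
      have := prb_le_one T (n + h)
      linarith
  · intro i _ j _ hij
    rw [Set.disjoint_singleton]
    omega

lemma prod_shift (f : ℕ → ℝ) (n H : ℕ) : ∏ h ∈ Icc 1 H, f (n + h) = ∏ m ∈ Ioc n (n + H), f m := by
  apply prod_bij (fun h _ => n + h)
  · intro h hh
    rw [mem_Icc] at hh
    rw [mem_Ioc]
    omega
  · intro h _ h' _ e
    exact Nat.add_left_cancel e
  · intro m hm
    rw [mem_Ioc] at hm
    exact ⟨m - n, by rw [mem_Icc]; omega, by omega⟩
  · intro h _
    rfl

/-- the Mertens lower bound for the sieving density -/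
lemma VV_low : ∃ C : ℝ, 0 < C ∧ ∀ t : ℕ, 1 / (C * Real.log ((max t 2 : ℕ) : ℝ)) ≤ VV (Pr t) := by
  obtain ⟨C, hC⟩ := Pool.Agent.Helper601.Mertens.mertens_inv
  -- the sum over the primes up to `t`
  have hsum : ∀ t : ℕ, 3 ≤ t → ∑ p ∈ Pr t, 1 / (p : ℝ) ≤ Real.log (Real.log t) + |C| := by
    intro t ht
    have h1 := hC t ht
    have h2 := le_abs_self C
    unfold Pr
    have h3 := (abs_le.1 h1).2
    linarith
  have hlow : ∀ t : ℕ, Real.exp (-(∑ p ∈ Pr t, 1 / (p : ℝ) + 2)) ≤ VV (Pr t) := by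
    intro t
    have h1 : ∀ p ∈ Pr t, Real.exp (-(1 / (p : ℝ) + 2 * (1 / (p : ℝ)) ^ 2)) ≤ 1 - 1 / (p : ℝ) := by
      intro p hp
      have h2 : (2 : ℝ) ≤ p := by exact_mod_cast (mem_Pr.1 hp).1.two_le
      apply exp_le_one_sub (by positivity)
      exact one_div_le_one_div_of_le (by norm_num) h2
    have h2 := prod_le_prod (fun _ _ => (Real.exp_pos _).le) h1
    refine le_trans ?_ h2
    rw [← Real.exp_sum]
    apply Real.exp_le_exp.2
    rw [sum_neg_distrib, sum_add_distrib, ← mul_sum]
    have h3 := Pool.Agent.K4H19.RO.sum_inv_sq (Pr t) 1 le_rfl (fun p hp => (mem_Pr.1 hp).1.one_lt)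
    have h4 : ∑ p ∈ Pr t, (1 / (p : ℝ)) ^ 2 ≤ 1 := by
      refine le_trans (le_of_eq (sum_congr rfl fun p _ => ?_)) (h3.trans (by norm_num))
      rw [div_pow, one_pow]
    linarith
  refine ⟨Real.exp (|C| + 4) * 2, by positivity, ?_⟩
  intro t
  have hl2 : 1 / 2 < Real.log 2 := by have := Real.log_two_gt_d9; linarith
  rcases Nat.lt_or_ge t 3 with ht | ht
  · have hm : max t 2 = 2 := by omega
    rw [hm]
    have h1 : ∑ p ∈ Pr t, 1 / (p : ℝ) ≤ 1 := by
      have h2 : Pr t ⊆ {2} := by
        intro p hp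
        rw [mem_Pr] at hp
        have := hp.1.two_le
        rw [mem_singleton]
        omega
      calc _ ≤ ∑ p ∈ ({2} : Finset ℕ), 1 / (p : ℝ) :=
            sum_le_sum_of_subset_of_nonneg h2 fun _ _ _ => by positivity
        _ ≤ 1 := by norm_num
    refine le_trans ?_ (hlow t)
    rw [Real.exp_neg, ← one_div]
    apply one_div_le_one_div_of_le (Real.exp_pos _)
    have h2 : Real.exp (∑ p ∈ Pr t, 1 / (p : ℝ) + 2) ≤ Real.exp (|C| + 4) :=
      Real.exp_le_exp.2 (by have := abs_nonneg C; linarith)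
    have h3 : Real.exp (|C| + 4) ≤ Real.exp (|C| + 4) * 2 * Real.log ((2 : ℕ) : ℝ) := by
      push_cast
      nlinarith [Real.exp_pos (|C| + 4)]
    exact h2.trans h3
  · have hm : max t 2 = t := by omega
    rw [hm]
    have htr : (3 : ℝ) ≤ t := by exact_mod_cast ht
    have hl : 1 ≤ Real.log t := by
      have h1 : Real.log (Real.exp 1) ≤ Real.log t := by
        apply Real.log_le_log (Real.exp_pos _)
        have := Real.exp_one_lt_d9
        linarith
      rwa [Real.log_exp] at h1
    refine le_trans ?_ (hlow t)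
    rw [Real.exp_neg, ← one_div]
    apply one_div_le_one_div_of_le (Real.exp_pos _)
    have h2 : Real.exp (∑ p ∈ Pr t, 1 / (p : ℝ) + 2) ≤ Real.exp (Real.log (Real.log t) + (|C| + 4)) :=
      Real.exp_le_exp.2 (by have := hsum t ht; linarith)
    have e : Real.exp (Real.log (Real.log t) + (|C| + 4)) = Real.log t * Real.exp (|C| + 4) := by
      rw [Real.exp_add, Real.exp_log (by linarith)]
    rw [e] at h2
    refine h2.trans ?_
    have h3 : 0 < Real.log t * Real.exp (|C| + 4) := mul_pos (by linarith) (Real.exp_pos _)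
    linarith

/-- the probabilities are small -/
lemma q_small {T : ℕ → ℕ} (hT : Sub T) {ε : ℝ} (hε : 0 < ε) :
    ∀ᶠ j : ℕ in atTop, 1 / (VV (Pr (T j)) * (j * Real.log 2)) ≤ ε := by
  obtain ⟨C, hC, h⟩ := VV_low
  have h1 : Tendsto (fun j : ℕ => C * (Real.log (T j) / j + Real.log 2 / j) / Real.log 2) atTop (𝓝 (C * (0 + 0) / Real.log 2)) := by
    apply Tendsto.div_const
    apply Tendsto.const_mul
    exact hT.add (tendsto_natCast_atTop_atTop.const_div_atTop _)
  rw [add_zero, mul_zero, zero_div] at h1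
  filter_upwards [h1.eventually_lt_const hε, eventually_ge_atTop 1] with j hj hj1
  have hjr : (1 : ℝ) ≤ j := by exact_mod_cast hj1
  refine le_trans ?_ hj.le
  have hl2 := log2_pos
  have hV := VPr_pos (T j)
  have h2 : Real.log ((max (T j) 2 : ℕ) : ℝ) ≤ Real.log (T j) + Real.log 2 := by
    rcases le_total (T j) 2 with h3 | h3
    · rw [max_eq_right h3]
      have := Real.log_natCast_nonneg (T j)
      push_cast
      linarith
    · rw [max_eq_left h3]
      linarith
  have hm0 : 0 < Real.log ((max (T j) 2 : ℕ) : ℝ) := by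
    apply Real.log_pos
    have : 2 ≤ max (T j) 2 := le_max_right _ _
    have h3 : (2 : ℝ) ≤ ((max (T j) 2 : ℕ) : ℝ) := by exact_mod_cast this
    linarith
  have h3 := h (T j)
  have h4 : 1 / VV (Pr (T j)) ≤ C * Real.log ((max (T j) 2 : ℕ) : ℝ) := by
    rw [div_le_iff₀ hV]
    rw [div_le_iff₀ (by positivity)] at h3
    linarith
  calc 1 / (VV (Pr (T j)) * (j * Real.log 2)) = 1 / VV (Pr (T j)) / (j * Real.log 2) := by
        rw [div_div]
    _ ≤ C * (Real.log (T j) + Real.log 2) / (j * Real.log 2) := by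
        apply div_le_div_of_nonneg_right _ (by positivity)
        refine h4.trans ?_
        gcongr
    _ = _ := by field_simp

end Pool.Agent.K4H19.GM
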