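import Pool.Agent.K4H19.GM.Mod

/-! Long empty windows exist. -/

set_option autoImplicit false

open MeasureTheory ProbabilityTheory Finset Filter
open scoped Topology

namespace Pool.Agent.K4H19.GM

open Pool.Agent.K4H77.Noise (sg sg_self sg_le none_blocks prod_blocks emp emp_meas exp_le_one_sub)

variable {Ω : Type*} [MeasurableSpace Ω]

lemma log_block {j m : ℕ} (h1 : 2 ^ j ≤ m) (h2 : m < 2 * 2 ^ j) : Nat.log 2 m = j := by
  apply Nat.log_eq_of_pow_le_of_lt_pow h1
  rw [pow_succ]
  linarith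

/-- lower bound for the probability that a window is empty -/
lemma emp_ge {T : ℕ → ℕ} (hT : Sub T) {ε : ℝ} (hε : 0 < ε) : ∀ᶠ j : ℕ in atTop,
    ∀ (Ω : Type) (_ : MeasurableSpace Ω) (P : Measure Ω) (_ : IsProbabilityMeasure P) (A : ℕ → Set Ω),
    Granville T P A → ∀ n y : ℕ, 2 ^ j ≤ n → n + y < 2 * 2 ^ j →
    ENNReal.ofReal (Real.exp (-((1 + ε) * (E (T j) n y * (1 / (VV (Pr (T j)) * (j * Real.log 2))))))) ≤
      P (emp A n y) := by
  classical
  have hq := q_small hT (show (0 : ℝ) < min (1 / 2) (ε / 2) from lt_min (by norm_num) (by linarith))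
  filter_upwards [hq, eventually_ge_atTop 1] with j hj hj1 Ω _ P _ A hA n y hn hy
  set q : ℝ := 1 / (VV (Pr (T j)) * (j * Real.log 2)) with hqd
  have hjr : (1 : ℝ) ≤ j := by exact_mod_cast hj1
  have hl2 := log2_pos
  have hV := VPr_pos (T j)
  have hq0 : 0 ≤ q := by rw [hqd]; positivity
  have hq1 : q ≤ 1 / 2 := hj.trans (min_le_left _ _)
  have hq2 : q ≤ ε / 2 := hj.trans (min_le_right _ _)
  rw [emp_prob hA, prod_shift (fun m => 1 - prb T m)]
  apply ENNReal.ofReal_le_ofReal
  have h1 : ∀ m ∈ Ioc n (n + y), (if ∀ p ∈ Pr (T j), ¬ p ∣ m then Real.exp (-(q + 2 * q ^ 2)) else 1) ≤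
      1 - prb T m := by
    intro m hm
    rw [mem_Ioc] at hm
    have hlog : Nat.log 2 m = j := log_block (by omega) (by omega)
    unfold prb
    rw [hlog]
    split_ifs with hs
    · refine (exp_le_one_sub hq0 hq1).trans ?_
      have h2 : (j : ℝ) * Real.log 2 ≤ Real.log m := by
        rw [← Real.log_pow]
        apply Real.log_le_log (by positivity)
        exact_mod_cast (by omega : 2 ^ j ≤ m)
      have h3 : 1 / (VV (Pr (T j)) * Real.log m) ≤ q := by
        apply one_div_le_one_div_of_le (by positivity)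
        exact mul_le_mul_of_nonneg_left h2 hV.le
      have h4 := min_le_right 1 (1 / (VV (Pr (T j)) * Real.log m))
      linarith
    · linarith
  refine le_trans ?_ (prod_le_prod (fun m _ => by split_ifs <;> positivity) h1)
  rw [← prod_filter, prod_const, ← Real.exp_nat_mul]
  apply Real.exp_le_exp.2
  have hE : ((((Ioc n (n + y)).filter (fun m => ∀ p ∈ Pr (T j), ¬ p ∣ m)).card : ℕ) : ℝ) = E (T j) n y := rfl
  rw [hE]
  have hE0 : 0 ≤ E (T j) n y := Nat.cast_nonneg _
  have h5 : q + 2 * q ^ 2 ≤ (1 + ε) * q := by nlinarith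
  have h6 := mul_le_mul_of_nonneg_left h5 hE0
  linarith

lemma summable_exp2 {η : ℝ} (hη : 0 < η) : Summable (fun j : ℕ => Real.exp (-(2 : ℝ) ^ (η * j))) := by
  have h1 : Summable (fun j : ℕ => Real.exp (-(j : ℝ))) := by
    have := Real.summable_exp_neg_nat
    exact this
  apply summable_of_isBigO_nat h1
  apply Asymptotics.IsBigO.of_bound 1
  filter_upwards [ev_pow 1 1 hη] with j hj
  rw [one_mul, Real.rpow_one] at hj
  rw [one_mul, Real.norm_eq_abs, Real.norm_eq_abs, Real.abs_exp, Real.abs_exp]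
  exact Real.exp_le_exp.2 (neg_le_neg hj)

/-- empty windows of length `c (log n)²` exist, if the sieve leaves windows with at most `θ < 1 / c` times the
expected number of survivors -/
theorem ae_gap {T : ℕ → ℕ} (hT : Sub T) {θ c : ℝ} (hθ : 0 < θ) (hc : 0 < c) (hθc : θ * c < 1) (J : ℕ → Prop)
    (hpack : ∀ η : ℝ, 0 < η → ∀ᶠ j : ℕ in atTop, J j → Pack (T j) (yy c j) (2 ^ j) θ ((2 : ℝ) ^ ((1 - η) * j)))
    {Ω : Type} [MeasurableSpace Ω] (P : Measure Ω) [IsProbabilityMeasure P] {A : ℕ → Set Ω} (hA : Granville T P A) :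
    ∀ᵐ ω ∂P, ∀ᶠ j : ℕ in atTop, J j → ∃ n : ℕ, 2 ^ j ≤ n ∧ n + yy c j < 2 * 2 ^ j ∧ ω ∈ emp A n (yy c j) := by
  classical
  set η : ℝ := (1 - θ * c) / 4 with hη
  have hη0 : 0 < η := by rw [hη]; linarith
  have hθc0 : 0 < θ * c := mul_pos hθ hc
  have a1 := emp_ge hT hη0
  have a2 := hpack η hη0
  set Bad : ℕ → Set Ω := fun j => {ω | J j ∧ ¬ ∃ n : ℕ, 2 ^ j ≤ n ∧ n + yy c j < 2 * 2 ^ j ∧ ω ∈ emp A n (yy c j)} with hBad
  have hprob : ∀ᶠ j : ℕ in atTop, P (Bad j) ≤ ENNReal.ofReal (Real.exp (-(2 : ℝ) ^ (η * j))) := by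
    filter_upwards [a1, a2, eventually_ge_atTop 1] with j h1 h2 hj1
    by_cases hJ : J j
    · obtain ⟨F, f1, f2, f3, f4⟩ := h2 hJ
      have hjr : (1 : ℝ) ≤ j := by exact_mod_cast hj1
      have hl2 := log2_pos
      have hV := VPr_pos (T j)
      -- the probability of each window
      have hP : ∀ n ∈ F, ENNReal.ofReal ((2 : ℝ) ^ (-(1 - 2 * η) * j)) ≤ P (emp A n (yy c j)) := by
        intro n hn
        refine le_trans (ENNReal.ofReal_le_ofReal ?_) (h1 Ω _ P inferInstance A hA n (yy c j) (f1 n hn).1 (f1 n hn).2)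
        rw [two_rpow]
        apply Real.exp_le_exp.2
        have h3 : E (T j) n (yy c j) * (1 / (VV (Pr (T j)) * (j * Real.log 2))) ≤ θ * c * (j * Real.log 2) := by
          have hy : (yy c j : ℝ) ≤ c * ((j : ℝ) * Real.log 2) ^ 2 := Nat.floor_le (by positivity)
          calc E (T j) n (yy c j) * (1 / (VV (Pr (T j)) * (j * Real.log 2))) ≤
              (θ * (yy c j * VV (Pr (T j)))) * (1 / (VV (Pr (T j)) * (j * Real.log 2))) := by
                apply mul_le_mul_of_nonneg_right (f4 n hn) (by positivity)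
            _ = θ * yy c j / (j * Real.log 2) := by field_simp
            _ ≤ θ * (c * ((j : ℝ) * Real.log 2) ^ 2) / (j * Real.log 2) := by gcongr
            _ = _ := by field_simp
        have h4 : (1 + η) * (θ * c) ≤ 1 - 2 * η := by
          have : θ * c = 1 - 4 * η := by rw [hη]; ring
          rw [this]
          nlinarith
        have h5 : (1 + η) * (E (T j) n (yy c j) * (1 / (VV (Pr (T j)) * (j * Real.log 2)))) ≤
            (1 - 2 * η) * (j * Real.log 2) := by
          calc _ ≤ (1 + η) * (θ * c * (j * Real.log 2)) := by gcongr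
            _ = (1 + η) * (θ * c) * (j * Real.log 2) := by ring
            _ ≤ _ := by gcongr
        have e : -(1 - 2 * η) * Real.log 2 * j = -((1 - 2 * η) * (j * Real.log 2)) := by ring
        rw [e]
        exact neg_le_neg h5
      have h3 := none_blocks P hA.meas hA.indep (fun n : ℕ => Set.Icc (n + 1) (n + yy c j)) (fun n => emp A n (yy c j)) F
        (fun n _ => emp_meas A n (yy c j) _ (fun h hh => by
          rw [mem_Icc] at hh
          exact ⟨by omega, by omega⟩))
        (by
          intro n hn m hm hnm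
          rw [Set.disjoint_left]
          rintro k ⟨k1, k2⟩ ⟨k3, k4⟩
          rcases Nat.lt_or_gt_of_ne hnm with h | h
          · have := f2 n hn m hm h
            omega
          · have := f2 m hm n hn h
            omega) ((2 : ℝ) ^ (-(1 - 2 * η) * j)) (by positivity) hP
      refine le_trans (measure_mono ?_) (h3.trans (ENNReal.ofReal_le_ofReal (Real.exp_le_exp.2 (neg_le_neg ?_))))
      · intro ω hω
        rw [Set.mem_iInter₂]
        intro n hn hcon
        exact hω.2 ⟨n, (f1 n hn).1, (f1 n hn).2, hcon⟩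
      · calc (2 : ℝ) ^ (η * j) = (2 : ℝ) ^ ((1 - η) * j) * (2 : ℝ) ^ (-(1 - 2 * η) * j) := by
              rw [← Real.rpow_add (by norm_num)]
              congr 1
              ring
          _ ≤ F.card * (2 : ℝ) ^ (-(1 - 2 * η) * j) := by gcongr
    · have : Bad j = ∅ := by
        rw [hBad]
        ext ω
        simp [hJ]
      rw [this, measure_empty]
      exact zero_le
  obtain ⟨j0, hj0⟩ := eventually_atTop.1 hprob
  have hsum : (∑' j, P (Bad (j + j0))) ≠ ⊤ := by
    have h2 := (summable_nat_add_iff j0).2 (summable_exp2 hη0)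
    exact ne_top_of_le_ne_top h2.tsum_ofReal_ne_top (ENNReal.tsum_le_tsum fun j => hj0 (j + j0) (Nat.le_add_left _ _))
  filter_upwards [ae_eventually_notMem hsum] with ω hω
  obtain ⟨j1, hj1⟩ := eventually_atTop.1 hω
  filter_upwards [eventually_ge_atTop (j1 + j0)] with j hj hJ
  have h1 := hj1 (j - j0) (by omega)
  rw [Nat.sub_add_cancel (by omega)] at h1
  by_contra hcon
  exact h1 ⟨hJ, hcon⟩

end Pool.Agent.K4H19.GM
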