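import Pool.Agent.K4H19.GM.Mod2

/-! No very long empty windows. -/

set_option autoImplicit false

open MeasureTheory ProbabilityTheory Finset Filter
open scoped Topology

namespace Pool.Agent.K4H19.GM

open Pool.Agent.K4H77.Noise (sg sg_self sg_le none_blocks prod_blocks emp emp_meas exp_le_one_sub)

lemma sum_shift (f : ℕ → ℝ) (n H : ℕ) : ∑ h ∈ Icc 1 H, f (n + h) = ∑ m ∈ Ioc n (n + H), f m := by
  apply sum_bij (fun h _ => n + h)
  · intro h hh
    rw [mem_Icc] at hh
    rw [mem_Ioc]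
    omega
  · intro h _ h' _ e
    exact Nat.add_left_cancel e
  · intro m hm
    rw [mem_Ioc] at hm
    exact ⟨m - n, by rw [mem_Icc]; omega, by omega⟩
  · intro h _
    rfl

/-- the expected number of selected integers in a window inside a dyadic block -/
lemma mass_block {ε : ℝ} (hε : 0 < ε) (hε1 : ε ≤ 1) : ∃ s : ℕ, 1 ≤ s ∧ ∀ T : ℕ → ℕ, Sub T → ∀ᶠ j : ℕ in atTop,
    ∀ a b J : ℕ, 2 ^ j ≤ a + 1 → a ≤ b → b < 2 * 2 ^ j → j + 1 ≤ J →
    (1 - ε) * (((b : ℝ) - a) - (T j : ℝ) ^ s) / (J * Real.log 2) ≤ ∑ m ∈ Ioc a b, prb T m := by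
  classical
  obtain ⟨s, hs, h⟩ := fl_low ε hε
  refine ⟨s, hs, ?_⟩
  intro T hT
  filter_upwards [q_small hT (show (0 : ℝ) < 1 by norm_num), eventually_ge_atTop 1] with j hj hj1 a b J ha hab hb hJ
  have hjr : (1 : ℝ) ≤ j := by exact_mod_cast hj1
  have hJr : (j : ℝ) + 1 ≤ J := by exact_mod_cast hJ
  have hl2 := log2_pos
  have hV := VPr_pos (T j)
  have hsum0 : 0 ≤ ∑ m ∈ Ioc a b, prb T m := sum_nonneg fun m _ => prb_nonneg T m
  rcases Nat.lt_or_ge (b - a) (T j ^ s) with hlt | hge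
  · refine le_trans ?_ hsum0
    apply div_nonpos_of_nonpos_of_nonneg _ (by positivity)
    apply mul_nonpos_of_nonneg_of_nonpos (by linarith)
    have h1 : ((b - a : ℕ) : ℝ) < ((T j ^ s : ℕ) : ℝ) := by exact_mod_cast hlt
    rw [Nat.cast_sub hab] at h1
    push_cast at h1
    linarith
  · have h1 := h (T j) (b - a) a hge
    rw [Nat.add_sub_cancel' hab] at h1
    have h2 : ∀ m ∈ Ioc a b, (if ∀ p ∈ Pr (T j), ¬ p ∣ m then 1 / (VV (Pr (T j)) * (J * Real.log 2)) else 0) ≤ prb T m := by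
      intro m hm
      rw [mem_Ioc] at hm
      have hlog : Nat.log 2 m = j := log_block (by omega) (by omega)
      unfold prb
      rw [hlog]
      split_ifs with hsf
      · have hmr : (1 : ℝ) < m := by
          have : 1 < m := by
            have : 2 ^ 1 ≤ 2 ^ j := Nat.pow_le_pow_right (by norm_num) hj1
            omega
          exact_mod_cast this
        have h3 : (j : ℝ) * Real.log 2 ≤ Real.log m := by
          rw [← Real.log_pow]
          apply Real.log_le_log (by positivity)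
          exact_mod_cast (by omega : 2 ^ j ≤ m)
        have h4 : Real.log m ≤ J * Real.log 2 := by
          have h5 : Real.log m ≤ ((j + 1 : ℕ) : ℝ) * Real.log 2 := by
            rw [← Real.log_pow]
            apply Real.log_le_log (by linarith)
            have : m ≤ 2 ^ (j + 1) := by rw [pow_succ]; omega
            exact_mod_cast this
          push_cast at h5
          nlinarith
        apply le_min
        · refine le_trans ?_ hj
          apply one_div_le_one_div_of_le (by positivity)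
          apply mul_le_mul_of_nonneg_left _ hV.le
          linarith
        · apply one_div_le_one_div_of_le (by
            apply mul_pos hV
            exact Real.log_pos hmr)
          exact mul_le_mul_of_nonneg_left h4 hV.le
      · exact le_rfl
    refine le_trans ?_ (sum_le_sum h2)
    rw [← sum_filter, sum_const, nsmul_eq_mul]
    rw [Nat.cast_sub hab] at h1
    have h3 : (1 - ε) * (((b : ℝ) - a) - (T j : ℝ) ^ s) ≤ (1 - ε) * ((b : ℝ) - a) := by
      apply mul_le_mul_of_nonneg_left _ (by linarith)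
      have : (0 : ℝ) ≤ (T j : ℝ) ^ s := by positivity
      linarith
    calc (1 - ε) * (((b : ℝ) - a) - (T j : ℝ) ^ s) / (J * Real.log 2) ≤ (1 - ε) * ((b : ℝ) - a) / (J * Real.log 2) := by
          apply div_le_div_of_nonneg_right h3 (by positivity)
      _ = (1 - ε) * (((b : ℝ) - a) * VV (Pr (T j))) * (1 / (VV (Pr (T j)) * (J * Real.log 2))) := by field_simp
      _ ≤ _ := by
          apply mul_le_mul_of_nonneg_right h1 (by positivity)

/-- upper bound for the probability that a window is empty -/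
lemma emp_le {ε : ℝ} (hε : 0 < ε) (hε1 : ε ≤ 1) : ∃ s : ℕ, 1 ≤ s ∧ ∀ T : ℕ → ℕ, Sub T → ∀ᶠ j : ℕ in atTop,
    ∀ (Ω : Type) (_ : MeasurableSpace Ω) (P : Measure Ω) (_ : IsProbabilityMeasure P) (A : ℕ → Set Ω),
    Granville T P A → ∀ n H : ℕ, 2 ^ j ≤ n → n < 2 * 2 ^ j → H ≤ n →
    P (emp A n H) ≤ ENNReal.ofReal (Real.exp (-((1 - ε) * ((H : ℝ) - 1 - (T j : ℝ) ^ s - (T (j + 1) : ℝ) ^ s) /
      (((j + 2 : ℕ) : ℝ) * Real.log 2)))) := by
  classical
  obtain ⟨s, hs, h⟩ := mass_block hε hε1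
  refine ⟨s, hs, ?_⟩
  intro T hT
  filter_upwards [h T hT, (tendsto_add_atTop_nat 1).eventually (h T hT), eventually_ge_atTop 1] with j h0 h1 hj1 Ω _ P _ A hA n H hn hn2 hH
  rw [emp_prob hA]
  apply ENNReal.ofReal_le_ofReal
  have hsum : (1 - ε) * ((H : ℝ) - 1 - (T j : ℝ) ^ s - (T (j + 1) : ℝ) ^ s) / (((j + 2 : ℕ) : ℝ) * Real.log 2) ≤
      ∑ h ∈ Icc 1 H, prb T (n + h) := by
    rw [sum_shift (fun m => prb T m)]
    have hl2 := log2_pos
    have hJ : 0 < ((j + 2 : ℕ) : ℝ) * Real.log 2 := by positivity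
    have hT1 : (0 : ℝ) ≤ (T j : ℝ) ^ s := by positivity
    have hT2 : (0 : ℝ) ≤ (T (j + 1) : ℝ) ^ s := by positivity
    have he : 0 ≤ 1 - ε := by linarith
    rcases Nat.lt_or_ge (n + H) (2 * 2 ^ j) with hlt | hge
    · have h2 := h0 n (n + H) (j + 2) (by omega) (by omega) hlt (by omega)
      refine le_trans ?_ h2
      apply div_le_div_of_nonneg_right _ hJ.le
      apply mul_le_mul_of_nonneg_left _ he
      push_cast
      linarith
    · -- split at `2 ^ (j + 1)`
      set b : ℕ := 2 * 2 ^ j - 1 with hb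
      have hp : 0 < 2 ^ j := by positivity
      have h2 := h0 n b (j + 2) (by omega) (by omega) (by omega) (by omega)
      have h3 := h1 b (n + H) (j + 2) (by rw [pow_succ]; omega) (by omega) (by rw [pow_succ]; omega) (by omega)
      have h4 : ∑ m ∈ Ioc n (n + H), prb T m = ∑ m ∈ Ioc n b, prb T m + ∑ m ∈ Ioc b (n + H), prb T m := by
        rw [Finset.sum_Ioc_consecutive _ (by omega) (by omega)]
      rw [h4]
      refine le_trans ?_ (add_le_add h2 h3)
      rw [← add_div]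
      apply div_le_div_of_nonneg_right _ hJ.le
      rw [← mul_add]
      apply mul_le_mul_of_nonneg_left _ he
      push_cast
      linarith
  calc ∏ h ∈ Icc 1 H, (1 - prb T (n + h)) ≤ ∏ h ∈ Icc 1 H, Real.exp (-prb T (n + h)) := by
        apply Finset.prod_le_prod
        · intro h _
          have := prb_le_one T (n + h)
          linarith
        · intro h _
          have := Real.add_one_le_exp (-prb T (n + h))
          linarith
    _ = Real.exp (-∑ h ∈ Icc 1 H, prb T (n + h)) := by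
        rw [← Real.exp_sum, sum_neg_distrib]
    _ ≤ _ := Real.exp_le_exp.2 (neg_le_neg hsum)

lemma tlog2 : Tendsto (fun n : ℕ => Nat.log 2 n) atTop atTop := by
  rw [tendsto_atTop]
  intro b
  filter_upwards [eventually_ge_atTop (2 ^ b)] with n hn
  exact Nat.le_log_of_pow_le (by norm_num) hn

lemma aux_num {J w : ℝ} (hJ : 4 ≤ J) (h : 64 * J ^ 2 ≤ w) : J + 2 ≤ w / 8 := by nlinarith

/-- every interval `(x, 2x]` contains a selected integer -/
theorem ae_dyadic {T : ℕ → ℕ} (hT : Sub T) {Ω : Type} [MeasurableSpace Ω] (P : Measure Ω) [IsProbabilityMeasure P]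
    {A : ℕ → Set Ω} (hA : Granville T P A) :
    ∀ᵐ ω ∂P, ∀ᶠ x : ℕ in atTop, ∃ m : ℕ, x < m ∧ m ≤ 2 * x ∧ ω ∈ A m := by
  classical
  obtain ⟨s, hs, h'⟩ := emp_le (show (0 : ℝ) < 1 / 2 by norm_num) (by norm_num)
  have h := h' T hT
  have hTs := hT.ev s (show (0 : ℝ) < 1 / 2 by norm_num)
  have c0 := ev_pow 16 0 (show (0 : ℝ) < 1 / 2 by norm_num)
  have c1 := ev_pow 64 2 (show (0 : ℝ) < 1 / 2 by norm_num)
  have hb : ∀ᶠ x : ℕ in atTop, P (emp A x x) ≤ ENNReal.ofReal (Real.exp (-(x : ℝ) ^ (1 / 4 : ℝ))) := by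
    filter_upwards [tlog2.eventually h, tlog2.eventually hTs, tlog2.eventually ((tendsto_add_atTop_nat 1).eventually hTs),
      tlog2.eventually c0, tlog2.eventually c1, tlog2.eventually_ge_atTop 4, eventually_ge_atTop 1]
      with x h1 h2 h3 h4 h5 h6 hx
    set j := Nat.log 2 x with hj
    have hx1 : 2 ^ j ≤ x := Nat.pow_log_le_self 2 (by omega)
    have hx2 : x < 2 * 2 ^ j := by
      have := Nat.lt_pow_succ_log_self (b := 2) (by norm_num) x
      rw [← hj, pow_succ] at this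
      omega
    refine (h1 Ω _ P inferInstance A hA x x hx1 hx2 le_rfl).trans (ENNReal.ofReal_le_ofReal (Real.exp_le_exp.2 (neg_le_neg ?_)))
    -- everything in terms of `w = 2 ^ (j / 2)`
    set w : ℝ := (2 : ℝ) ^ ((1 / 2 : ℝ) * j) with hw
    have hww : w * w = ((2 ^ j : ℕ) : ℝ) := by
      rw [hw, ← Real.rpow_add (by norm_num)]
      push_cast
      rw [← Real.rpow_natCast]
      congr 1
      ring
    have hw0 : 0 < w := by positivity
    have hx1r : w * w ≤ x := by
      rw [hww]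
      exact_mod_cast hx1
    have hx2r : (x : ℝ) ≤ 2 * (w * w) := by
      rw [hww]
      exact_mod_cast hx2.le
    have hTa : (T j : ℝ) ^ s ≤ w := by
      refine le_trans ?_ h2
      apply pow_le_pow_left₀ (Nat.cast_nonneg _)
      exact_mod_cast le_max_left (T j) 2
    have hTb : (T (j + 1) : ℝ) ^ s ≤ 2 * w := by
      have h7 : (T (j + 1) : ℝ) ^ s ≤ (2 : ℝ) ^ ((1 / 2 : ℝ) * ((j + 1 : ℕ) : ℝ)) := by
        refine le_trans ?_ h3
        apply pow_le_pow_left₀ (Nat.cast_nonneg _)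
        exact_mod_cast le_max_left (T (j + 1)) 2
      refine h7.trans ?_
      have h8 : (2 : ℝ) ^ ((1 / 2 : ℝ) * ((j + 1 : ℕ) : ℝ)) = w * (2 : ℝ) ^ (1 / 2 : ℝ) := by
        rw [hw, ← Real.rpow_add (by norm_num)]
        congr 1
        push_cast
        ring
      have h9 : (2 : ℝ) ^ (1 / 2 : ℝ) ≤ 2 := by
        calc (2 : ℝ) ^ (1 / 2 : ℝ) ≤ (2 : ℝ) ^ (1 : ℝ) := Real.rpow_le_rpow_of_exponent_le (by norm_num) (by norm_num)
          _ = 2 := Real.rpow_one _
      rw [h8]
      have := mul_le_mul_of_nonneg_left h9 hw0.le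
      linarith
    rw [Real.rpow_zero, mul_one] at h4
    have hw16 : (16 : ℝ) ≤ w := h4
    have hw2 : 1 ≤ w * w := by nlinarith
    have hw216 : 16 * w ≤ w * w := by nlinarith
    have hjr : (4 : ℝ) ≤ j := by exact_mod_cast h6
    -- `x ^ (1/4) ≤ x / (8 (j+2))`
    have hjw : 64 * (j : ℝ) ^ (2 : ℝ) ≤ w := h5
    rw [show (2 : ℝ) = ((2 : ℕ) : ℝ) by norm_num, Real.rpow_natCast] at hjw
    have hl2 : Real.log 2 ≤ 1 := by have := Real.log_two_lt_d9; linarith
    have hl20 := log2_pos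
    have hx0 : (0 : ℝ) < x := by exact_mod_cast hx
    have h10 : (x : ℝ) ^ (1 / 4 : ℝ) ≤ 2 * w := by
      have e1 : (2 * w) = ((2 * w) ^ (4 : ℝ)) ^ (1 / 4 : ℝ) := by
        rw [← Real.rpow_mul (by positivity)]
        norm_num
      rw [e1]
      apply Real.rpow_le_rpow hx0.le _ (by norm_num)
      rw [show (4 : ℝ) = ((4 : ℕ) : ℝ) by norm_num, Real.rpow_natCast]
      have h12 : w * w ≤ (w * w) * (w * w) := by
        have := mul_nonneg (mul_nonneg hw0.le hw0.le) (sub_nonneg.2 hw2)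
        linarith
      have h13 : (2 * w) ^ 4 = 16 * ((w * w) * (w * w)) := by ring
      rw [h13]
      linarith
    refine h10.trans ?_
    rw [le_div_iff₀ (by positivity)]
    have h13 : (x : ℝ) - 1 - (T j : ℝ) ^ s - (T (j + 1) : ℝ) ^ s ≥ w * w / 2 := by
      linarith
    have h14 : 2 * w * (((j + 2 : ℕ) : ℝ) * Real.log 2) ≤ w * w / 4 := by
      have h15 : ((j + 2 : ℕ) : ℝ) * Real.log 2 ≤ w / 8 := by
        have e1 : ((j + 2 : ℕ) : ℝ) = (j : ℝ) + 2 := by push_cast; ring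
        rw [e1]
        have e2 : ((j : ℝ) + 2) * Real.log 2 ≤ (j : ℝ) + 2 := by nlinarith
        exact e2.trans (aux_num hjr hjw)
      calc 2 * w * (((j + 2 : ℕ) : ℝ) * Real.log 2) ≤ 2 * w * (w / 8) := by gcongr
        _ = w * w / 4 := by ring
    linarith
  obtain ⟨x0, hx0⟩ := eventually_atTop.1 hb
  have hsum : (∑' x, P (emp A (x + x0) (x + x0))) ≠ ⊤ := by
    have h2 := (summable_nat_add_iff x0).2 (Pool.Agent.K4H77.Noise.summable_exp (1 / 4) (by norm_num))
    exact ne_top_of_le_ne_top h2.tsum_ofReal_ne_top (ENNReal.tsum_le_tsum fun x => hx0 (x + x0) (Nat.le_add_left _ _))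
  filter_upwards [ae_eventually_notMem hsum] with ω hω
  obtain ⟨x1, hx1⟩ := eventually_atTop.1 hω
  filter_upwards [eventually_ge_atTop (x1 + x0)] with x hx
  have h1 := hx1 (x - x0) (by omega)
  rw [Nat.sub_add_cancel (by omega)] at h1
  unfold emp at h1
  rw [Set.mem_iInter₂] at h1
  push Not at h1
  obtain ⟨m, hm, hm2⟩ := h1
  rw [mem_Icc] at hm
  rw [Set.mem_compl_iff, not_not] at hm2
  exact ⟨x + m, by omega, by omega, hm2⟩

/-- no empty windows of length `C (log n)²`, `C > 1`, if the level of the sieve is a small power -/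
theorem ae_upper {C : ℝ} (hC : 1 < C) : ∃ κ : ℝ, 0 < κ ∧ ∀ T : ℕ → ℕ, Sub T → (∀ᶠ j : ℕ in atTop, (T j : ℝ) ≤ (j : ℝ) ^ κ) →
    ∀ (Ω : Type) (_ : MeasurableSpace Ω) (P : Measure Ω) (_ : IsProbabilityMeasure P) (A : ℕ → Set Ω),
    Granville T P A → ∀ᵐ ω ∂P, ∀ᶠ n : ℕ in atTop, ω ∉ emp A n ⌊C * (Real.log n) ^ 2⌋₊ := by
  classical
  set ε : ℝ := (C - 1) / (C + 4) with hεd
  have hε : 0 < ε := div_pos (by linarith) (by linarith)
  have hε1 : ε ≤ 1 := by rw [hεd, div_le_one (by linarith)]; linarith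
  have hεC : ε * (C + 4) = C - 1 := by rw [hεd]; field_simp
  obtain ⟨s, hs, h⟩ := emp_le hε hε1
  have hsr : (0 : ℝ) < s := by exact_mod_cast (by omega : 0 < s)
  refine ⟨1 / s, by positivity, ?_⟩
  intro T hT hTκ Ω _ P _ A hA
  have hTs : ∀ᶠ j : ℕ in atTop, (T j : ℝ) ^ s ≤ j := by
    filter_upwards [hTκ] with j hj
    calc (T j : ℝ) ^ s ≤ ((j : ℝ) ^ (1 / (s : ℝ))) ^ s := pow_le_pow_left₀ (Nat.cast_nonneg _) hj s
      _ = j := by
          rw [← Real.rpow_natCast, ← Real.rpow_mul (Nat.cast_nonneg _), one_div_mul_cancel hsr.ne', Real.rpow_one]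
  have t2 : ∀ᶠ n : ℕ in atTop, (C : ℝ) * (Real.log n) ^ 2 ≤ n := by
    have h1 := (Real.isLittleO_pow_log_id_atTop (n := 2)).comp_tendsto (tendsto_natCast_atTop_atTop (R := ℝ))
    have h2 := h1.bound (show (0 : ℝ) < 1 / C by positivity)
    filter_upwards [h2] with n hn
    simp only [Function.comp, id, Real.norm_eq_abs, Nat.abs_cast] at hn
    rw [abs_of_nonneg (by positivity)] at hn
    have hC0 : (0 : ℝ) < C := by linarith
    calc C * (Real.log n) ^ 2 ≤ C * (1 / C * n) := by gcongr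
      _ = n := by field_simp
  have hb : ∀ᶠ n : ℕ in atTop, P (emp A n ⌊C * (Real.log n) ^ 2⌋₊) ≤ ENNReal.ofReal ((n : ℝ) ^ (-(1 + ε))) := by
    filter_upwards [tlog2.eventually (h T hT), tlog2.eventually hTs, tlog2.eventually ((tendsto_add_atTop_nat 1).eventually hTs),
      t2, tlog.eventually_ge_atTop (8 / ε), tlog.eventually_ge_atTop 1, eventually_ge_atTop 2]
      with n h1 h2 h3 h4 h5 h6 hn
    set j := Nat.log 2 n with hj
    have hx1 : 2 ^ j ≤ n := Nat.pow_log_le_self 2 (by omega)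
    have hx2 : n < 2 * 2 ^ j := by
      have := Nat.lt_pow_succ_log_self (b := 2) (by norm_num) n
      rw [← hj, pow_succ] at this
      omega
    have hn0 : (0 : ℝ) < n := by exact_mod_cast (by omega : 0 < n)
    set L : ℝ := Real.log n with hL
    set H : ℕ := ⌊C * L ^ 2⌋₊ with hH
    have hHn : H ≤ n := by
      have h7 : (H : ℝ) ≤ n := (Nat.floor_le (by positivity)).trans h4
      exact_mod_cast h7
    refine (h1 Ω _ P inferInstance A hA n H hx1 hx2 hHn).trans (ENNReal.ofReal_le_ofReal ?_)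
    rw [Real.rpow_def_of_pos hn0]
    apply Real.exp_le_exp.2
    have hl2 : 1 / 2 ≤ Real.log 2 := by have := Real.log_two_gt_d9; linarith
    have hl2' : Real.log 2 ≤ 1 := by have := Real.log_two_lt_d9; linarith
    have hjL : (j : ℝ) * Real.log 2 ≤ L := by
      rw [← Real.log_pow]
      apply Real.log_le_log (by positivity)
      exact_mod_cast hx1
    have hj0 : (0 : ℝ) ≤ j := Nat.cast_nonneg _
    have hj2 : (j : ℝ) ≤ 2 * L := by nlinarith
    have hHl : C * L ^ 2 < H + 1 := Nat.lt_floor_add_one _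
    have hL8 : 8 ≤ ε * L := by
      rw [div_le_iff₀ hε] at h5
      linarith
    have h3' : (T (j + 1) : ℝ) ^ s ≤ j + 1 := by
      refine h3.trans (le_of_eq ?_)
      push_cast
      rfl
    have hnum : (C - ε) * L ^ 2 ≤ (H : ℝ) - 1 - (T j : ℝ) ^ s - (T (j + 1) : ℝ) ^ s := by
      have h7 : 8 * L ≤ ε * L ^ 2 := by nlinarith
      nlinarith
    have hden : ((j + 2 : ℕ) : ℝ) * Real.log 2 ≤ (1 + ε) * L := by
      push_cast
      nlinarith
    have hden0 : 0 < ((j + 2 : ℕ) : ℝ) * Real.log 2 := by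
      have := log2_pos
      positivity
    have key : (1 + ε) * L ≤ (1 - ε) * ((H : ℝ) - 1 - (T j : ℝ) ^ s - (T (j + 1) : ℝ) ^ s) / (((j + 2 : ℕ) : ℝ) * Real.log 2) := by
      rw [le_div_iff₀ hden0]
      have h8 : (1 + ε) * (1 + ε) ≤ (1 - ε) * (C - ε) := by nlinarith
      have hL0 : 0 ≤ L := by linarith
      calc (1 + ε) * L * (((j + 2 : ℕ) : ℝ) * Real.log 2) ≤ (1 + ε) * L * ((1 + ε) * L) := by gcongr
        _ = (1 + ε) * (1 + ε) * L ^ 2 := by ring
        _ ≤ (1 - ε) * (C - ε) * L ^ 2 := by gcongr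
        _ = (1 - ε) * ((C - ε) * L ^ 2) := by ring
        _ ≤ _ := mul_le_mul_of_nonneg_left hnum (by linarith)
    linarith
  obtain ⟨x0, hx0⟩ := eventually_atTop.1 hb
  have hsum : (∑' x, P (emp A (x + x0) ⌊C * (Real.log ((x + x0 : ℕ) : ℝ)) ^ 2⌋₊)) ≠ ⊤ := by
    have h1 : Summable (fun x : ℕ => (x : ℝ) ^ (-(1 + ε))) := by
      rw [Real.summable_nat_rpow]
      linarith
    have h2 := (summable_nat_add_iff x0).2 h1
    exact ne_top_of_le_ne_top h2.tsum_ofReal_ne_top (ENNReal.tsum_le_tsum fun x => hx0 (x + x0) (Nat.le_add_left _ _))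
  filter_upwards [ae_eventually_notMem hsum] with ω hω
  obtain ⟨x1, hx1⟩ := eventually_atTop.1 hω
  filter_upwards [eventually_ge_atTop (x1 + x0)] with x hx
  have h1 := hx1 (x - x0) (by omega)
  rwa [Nat.sub_add_cancel (by omega)] at h1

end Pool.Agent.K4H19.GM
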