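import Pool.Agent.K4H19.GM.Many

/-! Windows with few survivors: asymptotic form. -/

set_option autoImplicit false

open Finset Filter
open scoped Topology

namespace Pool.Agent.K4H19.GM

/-- the window length -/
noncomputable def yy (c : ℝ) (j : ℕ) : ℕ := ⌊c * ((j : ℝ) * Real.log 2) ^ 2⌋₊

lemma Pack.mono {T y X : ℕ} {θ θ' N N' : ℝ} (h : Pack T y X θ N) (hθ : θ ≤ θ') (hN : N' ≤ N) :
    Pack T y X θ' N' := by
  obtain ⟨F, h1, h2, h3, h4⟩ := h
  refine ⟨F, h1, h2, hN.trans h3, fun n hn => (h4 n hn).trans ?_⟩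
  apply mul_le_mul_of_nonneg_right hθ
  have := VV_pos (P := Pr T) fun p hp => (mem_Pr.1 hp).1
  positivity

lemma log2_pos : (0 : ℝ) < Real.log 2 := Real.log_pos (by norm_num)

lemma two_rpow (κ : ℝ) (j : ℕ) : (2 : ℝ) ^ (κ * j) = Real.exp (κ * Real.log 2 * j) := by
  rw [Real.rpow_def_of_pos (by norm_num)]
  congr 1
  ring

/-- powers of `j` are small -/
lemma ev_pow (C : ℝ) (s : ℝ) {κ : ℝ} (hκ : 0 < κ) : ∀ᶠ j : ℕ in atTop, C * (j : ℝ) ^ s ≤ (2 : ℝ) ^ (κ * j) := by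
  have hb : 0 < κ * Real.log 2 := mul_pos hκ log2_pos
  have h1 := (isLittleO_rpow_exp_pos_mul_atTop s hb).comp_tendsto (tendsto_natCast_atTop_atTop (R := ℝ))
  have h2 := h1.bound (show (0 : ℝ) < 1 / (|C| + 1) by positivity)
  filter_upwards [h2] with j hj
  simp only [Function.comp, Real.norm_eq_abs, Real.abs_exp] at hj
  rw [two_rpow]
  have h3 : C * (j : ℝ) ^ s ≤ (|C| + 1) * |(j : ℝ) ^ s| := by
    calc C * (j : ℝ) ^ s ≤ |C * (j : ℝ) ^ s| := le_abs_self _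
      _ = |C| * |(j : ℝ) ^ s| := abs_mul _ _
      _ ≤ _ := by
          apply mul_le_mul_of_nonneg_right (by linarith) (abs_nonneg _)
  refine h3.trans ?_
  calc (|C| + 1) * |(j : ℝ) ^ s| ≤ (|C| + 1) * (1 / (|C| + 1) * Real.exp (κ * Real.log 2 * j)) := by gcongr
    _ = _ := by field_simp

lemma yy_le {c : ℝ} (hc : 0 ≤ c) (j : ℕ) : (yy c j : ℝ) ≤ c * (j : ℝ) ^ (2 : ℝ) := by
  have h1 : (yy c j : ℝ) ≤ c * ((j : ℝ) * Real.log 2) ^ 2 := Nat.floor_le (by positivity)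
  have h2 : Real.log 2 ≤ 1 := by have := Real.log_two_lt_d9; linarith
  have h3 : ((j : ℝ) * Real.log 2) ^ 2 ≤ (j : ℝ) ^ 2 := by
    apply pow_le_pow_left₀ (by have := log2_pos; positivity)
    have : (0 : ℝ) ≤ j := Nat.cast_nonneg _
    nlinarith
  rw [show (2 : ℝ) = ((2 : ℕ) : ℝ) by norm_num, Real.rpow_natCast]
  exact h1.trans (by gcongr)

lemma yy_ev {c : ℝ} (hc : 0 < c) : ∀ᶠ j : ℕ in atTop, 1 ≤ yy c j := by
  have h1 : Tendsto (fun j : ℕ => c * ((j : ℝ) * Real.log 2) ^ 2) atTop atTop := by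
    apply Tendsto.const_mul_atTop hc
    apply (tendsto_pow_atTop (by norm_num)).comp
    exact (tendsto_natCast_atTop_atTop (R := ℝ)).atTop_mul_const log2_pos
  filter_upwards [h1.eventually_ge_atTop 1] with j hj
  exact Nat.le_floor (by simpa using hj)

/-- the sieving level is subexponential -/
def Sub (T : ℕ → ℕ) : Prop := Tendsto (fun j : ℕ => Real.log (T j) / j) atTop (𝓝 0)

lemma Sub.ev {T : ℕ → ℕ} (hT : Sub T) (B : ℕ) {κ : ℝ} (hκ : 0 < κ) :
    ∀ᶠ j : ℕ in atTop, ((max (T j) 2 : ℕ) : ℝ) ^ B ≤ (2 : ℝ) ^ (κ * j) := by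
  have hb : 0 < κ * Real.log 2 / (B + 1) := by have := log2_pos; positivity
  have h1 := hT.eventually_lt_const hb
  have h2 := ev_pow ((2 : ℝ) ^ B) 0 hκ
  filter_upwards [h1, h2, eventually_ge_atTop 1] with j hj hj2 hj1
  have hjr : (0 : ℝ) < j := by exact_mod_cast hj1
  rcases le_total (T j) 2 with h | h
  · rw [max_eq_right h]
    rw [Real.rpow_zero, mul_one] at hj2
    exact_mod_cast hj2
  · rw [max_eq_left h]
    have hTr : (2 : ℝ) ≤ T j := by exact_mod_cast h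
    rw [div_lt_iff₀ hjr] at hj
    have hl : 0 ≤ Real.log (T j) := Real.log_nonneg (by linarith)
    rw [two_rpow, ← Real.rpow_natCast, Real.rpow_def_of_pos (by linarith)]
    apply Real.exp_le_exp.2
    have hB0 : (0 : ℝ) ≤ B := Nat.cast_nonneg _
    calc Real.log (T j) * B ≤ Real.log (T j) * (B + 1) := by nlinarith
      _ ≤ κ * Real.log 2 / (B + 1) * j * (B + 1) := by gcongr
      _ = _ := by field_simp

/-- windows with at most the average number of survivors -/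
theorem pack_avg {T : ℕ → ℕ} (hT : Sub T) {ε η c : ℝ} (hε : 0 < ε) (hη : 0 < η) (hc : 0 < c) :
    ∀ᶠ j : ℕ in atTop, Pack (T j) (yy c j) (2 ^ j) (1 + ε) ((2 : ℝ) ^ ((1 - η) * j)) := by
  set e : ℝ := min 1 (ε / 6) with he
  have he0 : 0 < e := lt_min one_pos (by positivity)
  have he1 : e ≤ 1 := min_le_left _ _
  have he2 : e ≤ ε / 6 := min_le_right _ _
  obtain ⟨B, hB, h⟩ := pack_core e he0 he1
  have a1 := yy_ev hc
  have a2 := ev_pow (16 * (c + 1)) 2 (show (0 : ℝ) < 1 / 2 by norm_num)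
  have a3 := hT.ev (B + 1) (show (0 : ℝ) < 1 / 2 by norm_num)
  have a4 := ev_pow (4 / e) 0 (show (0 : ℝ) < 1 / 2 by norm_num)
  have a5 := ev_pow (8 / e * (c + 1)) 2 hη
  filter_upwards [a1, a2, a3, a4, a5, eventually_ge_atTop 1] with j b1 b2 b3 b4 b5 b6
  have hjr : (1 : ℝ) ≤ j := by exact_mod_cast b6
  have hj2 : (1 : ℝ) ≤ (j : ℝ) ^ (2 : ℝ) := Real.one_le_rpow hjr (by norm_num)
  have hy : (yy c j : ℝ) + 1 ≤ (c + 1) * (j : ℝ) ^ (2 : ℝ) := by
    have := yy_le hc.le j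
    linarith
  have e2 : ((2 ^ j : ℕ) : ℝ) = (2 : ℝ) ^ ((1 / 2 : ℝ) * j) * (2 : ℝ) ^ ((1 / 2 : ℝ) * j) := by
    rw [← Real.rpow_add (by norm_num)]
    push_cast
    rw [← Real.rpow_natCast]
    congr 1
    ring
  have hp : 1 ≤ (2 : ℝ) ^ ((1 / 2 : ℝ) * j) := Real.one_le_rpow (by norm_num) (by positivity)
  have h1 := h (T j) (max (T j) 2) ∅ 0 (yy c j) (yy c j) (2 ^ j) 1 (le_max_right _ _) (le_max_left _ _)
    (empty_subset _) (by omega) b1 one_pos (by simp [VV]) (by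
      rw [prod_empty]
      have h2 : (4 * (1 + (yy c j : ℝ))) ≤ ((2 ^ j : ℕ) : ℝ) := by
        rw [e2]
        nlinarith
      exact_mod_cast h2) (by
      rw [prod_empty, e2]
      push_cast
      rw [mul_one]
      rw [Real.rpow_zero, mul_one, div_le_iff₀ he0] at b4
      have hz0 : (0 : ℝ) ≤ ((max (T j) 2 : ℕ) : ℝ) ^ (B + 1) := by positivity
      push_cast at b3 hz0
      calc (max (T j : ℝ) 2) ^ (B + 1) * 4 ≤ (2 : ℝ) ^ ((1 / 2 : ℝ) * j) * ((2 : ℝ) ^ ((1 / 2 : ℝ) * j) * e) := by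
            apply mul_le_mul b3 b4 (by norm_num) (by positivity)
        _ = _ := by ring)
  refine h1.mono ?_ ?_
  · nlinarith
  · rw [prod_empty]
    push_cast
    rw [one_mul]
    have hy0 : (0 : ℝ) < (yy c j : ℝ) + 1 := by positivity
    rw [mul_div_assoc', le_div_iff₀ hy0]
    have e3 : (2 : ℝ) ^ j = (2 : ℝ) ^ ((1 - η) * j) * (2 : ℝ) ^ (η * j) := by
      rw [← Real.rpow_add (by norm_num), ← Real.rpow_natCast]
      congr 1
      ring
    rw [e3]
    have h4 : (yy c j : ℝ) + 1 ≤ e / 8 * (2 : ℝ) ^ (η * j) := by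
      have h5 : 8 / e * ((yy c j : ℝ) + 1) ≤ (2 : ℝ) ^ (η * j) := by
        refine le_trans ?_ b5
        rw [mul_assoc]
        gcongr
      calc (yy c j : ℝ) + 1 = e / 8 * (8 / e * ((yy c j : ℝ) + 1)) := by field_simp
        _ ≤ _ := by gcongr
    have h6 : 0 < (2 : ℝ) ^ ((1 - η) * j) := by positivity
    nlinarith

end Pool.Agent.K4H19.GM
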