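import Pool.Agent.K4H19.GM.Pack

/-! Windows with fewer survivors than the average: asymptotic form. -/

set_option autoImplicit false

open Finset Filter
open scoped Topology

namespace Pool.Agent.K4H19.GM

/-- `⌊j ^ β⌋` -/
noncomputable def zf (β : ℝ) (j : ℕ) : ℕ := ⌊(j : ℝ) ^ β⌋₊

lemma zf_tendsto {β : ℝ} (hβ : 0 < β) : Tendsto (zf β) atTop atTop :=
  tendsto_nat_floor_atTop.comp ((tendsto_rpow_atTop hβ).comp (tendsto_natCast_atTop_atTop (R := ℝ)))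

lemma prod_le_four_pow (P : Finset ℕ) (z : ℕ) (hP : ∀ p ∈ P, p.Prime ∧ p ≤ z) : ∏ p ∈ P, p ≤ 4 ^ z := by
  have h1 : P ⊆ (range (z + 1)).filter Nat.Prime := by
    intro p hp
    rw [mem_filter, mem_range]
    exact ⟨by have := (hP p hp).2; omega, (hP p hp).1⟩
  calc ∏ p ∈ P, p ≤ ∏ p ∈ (range (z + 1)).filter Nat.Prime, p := by
        apply prod_le_prod_of_subset_of_one_le' h1
        intro p hp _
        exact (mem_filter.1 hp).2.one_lt.le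
    _ ≤ 4 ^ z := primorial_le_four_pow z

/-- `4 ^ (j ^ β)` is small -/
lemma ev_four {β : ℝ} (hβ1 : β ≤ 1 / 2) {κ : ℝ} (hκ : 0 < κ) :
    ∀ᶠ j : ℕ in atTop, ((4 ^ zf β j : ℕ) : ℝ) ≤ (2 : ℝ) ^ (κ * j) := by
  have h1 : Tendsto (fun j : ℕ => (j : ℝ) ^ (1 / 2 : ℝ)) atTop atTop :=
    (tendsto_rpow_atTop (by norm_num)).comp (tendsto_natCast_atTop_atTop (R := ℝ))
  filter_upwards [h1.eventually_ge_atTop (2 / κ), eventually_ge_atTop 1] with j hj hj1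
  have hjr : (1 : ℝ) ≤ j := by exact_mod_cast hj1
  have h2 : (zf β j : ℝ) ≤ (j : ℝ) ^ (1 / 2 : ℝ) :=
    (Nat.floor_le (by positivity)).trans (Real.rpow_le_rpow_of_exponent_le hjr hβ1)
  have h3 : (j : ℝ) ^ (1 / 2 : ℝ) * (j : ℝ) ^ (1 / 2 : ℝ) = j := by
    rw [← Real.rpow_add (by linarith)]; norm_num
  have h4 : 2 * (zf β j : ℝ) ≤ κ * j := by
    rw [div_le_iff₀ hκ] at hj
    have h5 : 0 ≤ (j : ℝ) ^ (1 / 2 : ℝ) := by positivity
    calc 2 * (zf β j : ℝ) ≤ 2 * (j : ℝ) ^ (1 / 2 : ℝ) := by gcongr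
      _ ≤ ((j : ℝ) ^ (1 / 2 : ℝ) * κ) * (j : ℝ) ^ (1 / 2 : ℝ) := by gcongr
      _ = κ * ((j : ℝ) ^ (1 / 2 : ℝ) * (j : ℝ) ^ (1 / 2 : ℝ)) := by ring
      _ = κ * j := by rw [h3]
  push_cast
  rw [show (4 : ℝ) = 2 ^ (2 : ℝ) by norm_num, ← Real.rpow_natCast, ← Real.rpow_mul (by norm_num)]
  exact Real.rpow_le_rpow_of_exponent_le (by norm_num) h4

/-- windows with fewer survivors than the average -/
theorem pack_def {α : ℝ} (hα : 0 < α) : ∃ δ : ℝ, 0 < δ ∧ δ < 1 ∧ ∀ (T : ℕ → ℕ), Sub T → ∀ η c : ℝ, 0 < η → 0 < c →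
    ∀ᶠ j : ℕ in atTop, (j : ℝ) ^ α ≤ T j → Pack (T j) (yy c j) (2 ^ j) (1 - δ) ((2 : ℝ) ^ ((1 - η) * j)) := by
  set β : ℝ := min α (1 / 2) with hβ
  have hβ0 : 0 < β := lt_min hα (by norm_num)
  have hβα : β ≤ α := min_le_left _ _
  have hβ2 : β ≤ 1 / 2 := min_le_right _ _
  obtain ⟨k, hk2, hke, hkβ⟩ : ∃ k : ℕ, 2 ≤ k ∧ Even k ∧ 3 ≤ β * ((k : ℝ) - 1 / 2) := by
    obtain ⟨n, hn⟩ := exists_nat_ge (3 / β)
    refine ⟨2 * (n + 1), by omega, even_two_mul _, ?_⟩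
    rw [div_le_iff₀ hβ0] at hn
    push_cast
    have : (0 : ℝ) ≤ n := Nat.cast_nonneg _
    nlinarith
  obtain ⟨δ0, hδ0, hδ1, hd⟩ := deficit k hk2 hke
  refine ⟨δ0 / 4, by positivity, by linarith, ?_⟩
  intro T hT η c hη hc
  set e : ℝ := δ0 / 20 with he
  have he0 : 0 < e := by positivity
  have he1 : e ≤ 1 := by rw [he]; linarith
  obtain ⟨B, hB, h⟩ := pack_core e he0 he1
  have a1 := yy_ev hc
  have a0 := (zf_tendsto hβ0).eventually hd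
  have az := (zf_tendsto hβ0).eventually_ge_atTop 2
  have a2 := ev_pow 16 (k : ℝ) (show (0 : ℝ) < 1 / 2 by norm_num)
  have a3 := hT.ev (B + 1) (show (0 : ℝ) < 1 / 4 by norm_num)
  have a4 := ev_pow (4 / e) 0 (show (0 : ℝ) < 1 / 4 by norm_num)
  have a5 := ev_pow (8 / e * (c + 1)) 2 (show (0 : ℝ) < η / 2 by linarith)
  have a6 := ev_four hβ2 (show (0 : ℝ) < min (1 / 4) (η / 2) from lt_min (by norm_num) (by linarith))
  have a7 : ∀ᶠ j : ℕ in atTop, c * (2 / δ0) * 2 ^ (k : ℝ) ≤ (j : ℝ) ^ (1 : ℝ) :=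
    ((tendsto_rpow_atTop (by norm_num)).comp (tendsto_natCast_atTop_atTop (R := ℝ))).eventually_ge_atTop _
  have a8 : ∀ᶠ j : ℕ in atTop, (8 : ℝ) ≤ (2 : ℝ) ^ ((1 / 4 : ℝ) * j) := by
    have := ev_pow 8 0 (show (0 : ℝ) < 1 / 4 by norm_num)
    filter_upwards [this] with j hj
    rwa [Real.rpow_zero, mul_one] at hj
  filter_upwards [a1, a0, az, a2, a3, a4, a5, a6, a7, a8, eventually_ge_atTop 1] with j b1 b0 bz b2 b3 b4 b5 b6 b7
    b8 b9 hTj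
  obtain ⟨P, x, hP, hx, hx2, hcount⟩ := b0
  have hjr : (1 : ℝ) ≤ j := by exact_mod_cast b9
  have hj2 : (1 : ℝ) ≤ (j : ℝ) ^ (2 : ℝ) := Real.one_le_rpow hjr (by norm_num)
  have hy : (yy c j : ℝ) + 1 ≤ (c + 1) * (j : ℝ) ^ (2 : ℝ) := by
    have := yy_le hc.le j
    linarith
  have hyr : (1 : ℝ) ≤ yy c j := by exact_mod_cast b1
  set z := zf β j with hz
  have hpp : ∀ p ∈ P, p.Prime := fun p hp => (hP p hp).1
  have hzj : (z : ℝ) ≤ (j : ℝ) ^ β := Nat.floor_le (by positivity)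
  have hzj2 : (j : ℝ) ^ β / 2 ≤ z := by
    have h1 : (j : ℝ) ^ β < z + 1 := Nat.lt_floor_add_one _
    have h2 : (2 : ℝ) ≤ z := by exact_mod_cast bz
    linarith
  have hzT : z ≤ T j := by
    have h1 : (z : ℝ) ≤ T j := hzj.trans ((Real.rpow_le_rpow_of_exponent_le hjr hβα).trans hTj)
    exact_mod_cast h1
  have hPT : P ⊆ Pr (T j) := fun p hp => mem_Pr.2 ⟨(hP p hp).1, (hP p hp).2.trans hzT⟩
  have hD4 : ((∏ p ∈ P, p : ℕ) : ℝ) ≤ (2 : ℝ) ^ (min (1 / 4) (η / 2) * j) := by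
    refine le_trans ?_ b6
    exact_mod_cast prod_le_four_pow P z hP
  have hDa : ((∏ p ∈ P, p : ℕ) : ℝ) ≤ (2 : ℝ) ^ ((1 / 4 : ℝ) * j) :=
    hD4.trans (Real.rpow_le_rpow_of_exponent_le (by norm_num)
      (mul_le_mul_of_nonneg_right (min_le_left _ _) (by linarith)))
  have hDb : ((∏ p ∈ P, p : ℕ) : ℝ) ≤ (2 : ℝ) ^ ((η / 2) * j) :=
    hD4.trans (Real.rpow_le_rpow_of_exponent_le (by norm_num)
      (mul_le_mul_of_nonneg_right (min_le_right _ _) (by linarith)))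
  -- `x` is large
  have hxj : (j : ℝ) ^ (3 : ℝ) / 2 ^ (k : ℝ) ≤ x := by
    refine le_trans ?_ hx
    have hk12 : 0 ≤ (k : ℝ) - 1 / 2 := by
      have : (2 : ℝ) ≤ k := by exact_mod_cast hk2
      linarith
    calc (j : ℝ) ^ (3 : ℝ) / 2 ^ (k : ℝ) ≤ ((j : ℝ) ^ β) ^ ((k : ℝ) - 1 / 2) / 2 ^ ((k : ℝ) - 1 / 2) := by
          rw [← Real.rpow_mul (by linarith)]
          apply div_le_div₀ (by positivity)
          · exact Real.rpow_le_rpow_of_exponent_le hjr hkβ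
          · positivity
          · exact Real.rpow_le_rpow_of_exponent_le (by norm_num) (by linarith)
      _ = ((j : ℝ) ^ β / 2) ^ ((k : ℝ) - 1 / 2) := by
          rw [Real.div_rpow (by positivity) (by norm_num)]
      _ ≤ (z : ℝ) ^ ((k : ℝ) - 1 / 2) := Real.rpow_le_rpow (by positivity) hzj2 hk12
  have hyx : (yy c j : ℝ) ≤ δ0 / 2 * x := by
    have h1 : (j : ℝ) ^ (3 : ℝ) = (j : ℝ) ^ (2 : ℝ) * (j : ℝ) ^ (1 : ℝ) := by
      rw [← Real.rpow_add (by linarith)]; norm_num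
    have h2 : c * (2 / δ0) * (j : ℝ) ^ (2 : ℝ) ≤ x := by
      refine le_trans ?_ hxj
      rw [le_div_iff₀ (by positivity), h1]
      calc c * (2 / δ0) * (j : ℝ) ^ (2 : ℝ) * 2 ^ (k : ℝ) = (j : ℝ) ^ (2 : ℝ) * (c * (2 / δ0) * 2 ^ (k : ℝ)) := by ring
        _ ≤ _ := by gcongr
    calc (yy c j : ℝ) ≤ c * (j : ℝ) ^ (2 : ℝ) := yy_le hc.le j
      _ = δ0 / 2 * (c * (2 / δ0) * (j : ℝ) ^ (2 : ℝ)) := by field_simp
      _ ≤ _ := by gcongr
  have hx0 : (0 : ℝ) ≤ x := Nat.cast_nonneg _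
  have hyxn : yy c j ≤ x := by
    have : (yy c j : ℝ) ≤ x := by nlinarith
    exact_mod_cast this
  have hV0 := VV_pos hpp
  obtain ⟨a, ha1, ha2⟩ := window_avg (fun m => ∀ p ∈ P, ¬ p ∣ m) x (yy c j) ((1 - δ0) * VV P) ((1 - δ0 / 2) * VV P)
    hyxn (hcount.trans (le_of_eq (by ring))) (by
      have h1 : (1 - δ0) * x ≤ (1 - δ0 / 2) * (x - yy c j) := by nlinarith
      calc (1 - δ0) * VV P * x = VV P * ((1 - δ0) * x) := by ring
        _ ≤ VV P * ((1 - δ0 / 2) * (x - yy c j)) := by gcongr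
        _ = _ := by ring) (mul_nonneg (by linarith) hV0.le) b1
  have hxk : (x : ℝ) ≤ (j : ℝ) ^ (k : ℝ) := by
    have h1 : (x : ℝ) ≤ (z : ℝ) ^ k := by exact_mod_cast hx2
    refine h1.trans ?_
    rw [Real.rpow_natCast]
    apply pow_le_pow_left₀ (by positivity)
    refine hzj.trans ?_
    calc (j : ℝ) ^ β ≤ (j : ℝ) ^ (1 : ℝ) := Real.rpow_le_rpow_of_exponent_le hjr (by linarith)
      _ = j := Real.rpow_one _
  have e2 : ((2 ^ j : ℕ) : ℝ) = (2 : ℝ) ^ ((1 / 2 : ℝ) * j) * ((2 : ℝ) ^ ((1 / 4 : ℝ) * j) * (2 : ℝ) ^ ((1 / 4 : ℝ) * j)) := by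
    rw [← Real.rpow_add (by norm_num), ← Real.rpow_add (by norm_num)]
    push_cast
    rw [← Real.rpow_natCast]
    congr 1
    ring
  have hp2 : 1 ≤ (2 : ℝ) ^ ((1 / 2 : ℝ) * j) := Real.one_le_rpow (by norm_num) (by positivity)
  have hp4 : 1 ≤ (2 : ℝ) ^ ((1 / 4 : ℝ) * j) := Real.one_le_rpow (by norm_num) (by positivity)
  have h1 := h (T j) (max (T j) 2) P a (yy c j) x (2 ^ j) (1 - δ0 / 2) (le_max_right _ _) (le_max_left _ _)
    hPT ha1 b1 (by linarith) (by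
      refine ha2.trans (le_of_eq ?_)
      ring) (by
      have h2 : (4 * (((∏ p ∈ P, p : ℕ) : ℝ) + (x : ℝ))) ≤ ((2 ^ j : ℕ) : ℝ) := by
        rw [e2]
        set w := (2 : ℝ) ^ ((1 / 4 : ℝ) * j) with hw
        have e3 : (2 : ℝ) ^ ((1 / 2 : ℝ) * j) = w * w := by
          rw [hw, ← Real.rpow_add (by norm_num)]
          congr 1
          ring
        rw [e3] at b2 ⊢
        have hw0 : 0 ≤ w := by positivity
        have h3 : 4 * w ≤ w * w / 2 := by nlinarith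
        have h4 : w * w ≤ w * w * (w * w) := by nlinarith [mul_nonneg hw0 hw0]
        nlinarith [mul_nonneg hw0 hw0]
      exact_mod_cast h2) (by
      rw [e2]
      rw [Real.rpow_zero, mul_one, div_le_iff₀ he0] at b4
      set w := (2 : ℝ) ^ ((1 / 4 : ℝ) * j) with hw
      have hw0 : 0 ≤ w := by positivity
      have e3 : (2 : ℝ) ^ ((1 / 2 : ℝ) * j) = w * w := by
        rw [hw, ← Real.rpow_add (by norm_num)]
        congr 1
        ring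
      rw [e3]
      have hD0 : (0 : ℝ) ≤ ((∏ p ∈ P, p : ℕ) : ℝ) := Nat.cast_nonneg _
      calc ((max (T j) 2 : ℕ) : ℝ) ^ (B + 1) * (4 * ((∏ p ∈ P, p : ℕ) : ℝ)) ≤ w * ((w * e) * w) := by
            apply mul_le_mul b3 _ (by positivity) hw0
            apply mul_le_mul b4 hDa hD0 (by positivity)
        _ ≤ e * (w * w * (w * w)) := by
            have h4 : w * w ≤ w * w * w := by nlinarith [mul_nonneg hw0 hw0]
            have h5 : w * (w * e * w) * 1 ≤ w * (w * e * w) * w := by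
              apply mul_le_mul_of_nonneg_left hp4 (by positivity)
            nlinarith)
  refine h1.mono ?_ ?_
  · have g1 : (1 + 2 * e) * (1 + e) ≤ 1 + δ0 / 5 := by
      rw [he]
      nlinarith
    calc (1 - δ0 / 2) * ((1 + 2 * e) * (1 + e)) ≤ (1 - δ0 / 2) * (1 + δ0 / 5) := by
          apply mul_le_mul_of_nonneg_left g1 (by linarith)
      _ ≤ 1 - δ0 / 4 := by nlinarith
  · have hD1 : (1 : ℝ) ≤ ((∏ p ∈ P, p : ℕ) : ℝ) := by
      have : 1 ≤ ∏ p ∈ P, p := Nat.one_le_iff_ne_zero.2 (prod_ne_zero_iff.2 fun p hp => (hpp p hp).ne_zero)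
      exact_mod_cast this
    have hy0 : (0 : ℝ) < (yy c j : ℝ) + 1 := by positivity
    rw [mul_div_assoc', le_div_iff₀ (by positivity)]
    have e3 : ((2 ^ j : ℕ) : ℝ) = (2 : ℝ) ^ ((1 - η) * j) * ((2 : ℝ) ^ ((η / 2) * j) * (2 : ℝ) ^ ((η / 2) * j)) := by
      rw [← Real.rpow_add (by norm_num), ← Real.rpow_add (by norm_num)]
      push_cast
      rw [← Real.rpow_natCast]
      congr 1
      ring
    rw [e3]
    have h4 : (yy c j : ℝ) + 1 ≤ e / 8 * (2 : ℝ) ^ ((η / 2) * j) := by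
      have h5 : 8 / e * ((yy c j : ℝ) + 1) ≤ (2 : ℝ) ^ ((η / 2) * j) := by
        refine le_trans ?_ b5
        rw [mul_assoc]
        gcongr
      calc (yy c j : ℝ) + 1 = e / 8 * (8 / e * ((yy c j : ℝ) + 1)) := by field_simp
        _ ≤ _ := by gcongr
    have h6 : 0 < (2 : ℝ) ^ ((1 - η) * j) := by positivity
    have h7 : ((∏ p ∈ P, p : ℕ) : ℝ) * ((yy c j : ℝ) + 1) ≤ (2 : ℝ) ^ ((η / 2) * j) * (e / 8 * (2 : ℝ) ^ ((η / 2) * j)) :=
      mul_le_mul hDb h4 hy0.le (by positivity)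
    calc (2 : ℝ) ^ ((1 - η) * j) * (((∏ p ∈ P, p : ℕ) : ℝ) * ((yy c j : ℝ) + 1)) ≤
        (2 : ℝ) ^ ((1 - η) * j) * ((2 : ℝ) ^ ((η / 2) * j) * (e / 8 * (2 : ℝ) ^ ((η / 2) * j))) := by gcongr
      _ = _ := by ring

end Pool.Agent.K4H19.GM
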